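import Pool.Agent.Lib.MP_0170ef_an_h54.Corridor2

/-!
The corridor theorem.
-/

set_option autoImplicit false

open Set Filter Topology

namespace LinNi.H54

open LinNi

/-- order at the initial time -/
lemma order {al ar t₁ τ : ℝ} (ht₁ : 0 < t₁) (hτ : 0 < τ)
    (hH : ∀ a ∈ Icc al ar, Hyp a t₁)
    (hL : ∀ a ∈ Icc al ar, ∀ G u μ, Lin 1 (V 1 a) t₁ τ G u μ →
      0 < u t₁ ∧ 0.85 * u t₁ < u t₁ + μ t₁ / t₁ ∧ u t₁ + μ t₁ / t₁ < 1.1 * u t₁)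
    {a b : ℝ} (ha : a ∈ Icc al ar) (hb : b ∈ Icc al ar) (hab : a < b) :
    V 1 a t₁ < V 1 b t₁ ∧
    0.85 * (V 1 b t₁ - V 1 a t₁) < P 1 b t₁ - P 1 a t₁ ∧
    P 1 b t₁ - P 1 a t₁ < 1.1 * (V 1 b t₁ - V 1 a t₁) := by
  have key : ∀ c ∈ Icc al ar, ∃ δ > 0, ∀ x ∈ Icc al ar, ∀ z ∈ Icc al ar, |x - c| < δ →
      |z - c| < δ → x < z → V 1 x t₁ < V 1 z t₁ ∧
      0.85 * (V 1 z t₁ - V 1 x t₁) < P 1 z t₁ - P 1 x t₁ ∧
      P 1 z t₁ - P 1 x t₁ < 1.1 * (V 1 z t₁ - V 1 x t₁) := by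
    intro c hc
    have hyp := hH c hc
    obtain ⟨δ, hδ, h1⟩ := near_lin one_mem hyp.ha hyp.ha2 ht₁ (by linarith [hyp.hV]) hτ
    refine ⟨δ, hδ, fun x _ z _ hx hz hxz => ?_⟩
    obtain ⟨q1, q2, q3⟩ := hL c hc _ _ _ (h1 x z hx hz hxz.ne)
    have hzx : 0 < z - x := by linarith
    have e : (V 1 z t₁ - V 1 x t₁) / (z - x) + (M 1 z t₁ - M 1 x t₁) / (z - x) / t₁ =
        (P 1 z t₁ - P 1 x t₁) / (z - x) := by
      unfold P; field_simp; ring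
    rw [e, mul_div_assoc', div_lt_div_iff_of_pos_right hzx] at q2 q3
    have q1' := (div_pos_iff_of_pos_right hzx).1 q1
    exact ⟨by linarith, q2, q3⟩
  have m1 : StrictMonoOn (fun a => V 1 a t₁) (Icc al ar) := by
    apply strictMonoOn_of_local
    intro c hc
    obtain ⟨δ, hδ, h⟩ := key c hc
    exact ⟨δ, hδ, fun x hx z hz h1 h2 h3 => (h x hx z hz h1 h2 h3).1⟩
  have m2 : StrictMonoOn (fun a => P 1 a t₁ - 0.85 * V 1 a t₁) (Icc al ar) := by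
    apply strictMonoOn_of_local
    intro c hc
    obtain ⟨δ, hδ, h⟩ := key c hc
    exact ⟨δ, hδ, fun x hx z hz h1 h2 h3 => by linarith [(h x hx z hz h1 h2 h3).2.1]⟩
  have m3 : StrictMonoOn (fun a => 1.1 * V 1 a t₁ - P 1 a t₁) (Icc al ar) := by
    apply strictMonoOn_of_local
    intro c hc
    obtain ⟨δ, hδ, h⟩ := key c hc
    exact ⟨δ, hδ, fun x hx z hz h1 h2 h3 => by linarith [(h x hx z hz h1 h2 h3).2.2]⟩
  have q1 := m1 ha hb hab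
  have q2 := m2 ha hb hab
  have q3 := m3 ha hb hab
  simp only at q1 q2 q3
  exact ⟨q1, by linarith, by linarith⟩

/-- propagation of the cone for linear data through the corridor -/
lemma lin_cone {a t₁ t τ : ℝ} (ht₁ : 0 < t₁) (ht : t₁ ≤ t) (ha : Hyp a t₁) (hτ : 0 < τ)
    (hg : ∀ s ∈ Icc t₁ t, Good a s)
    (hL : ∀ G u μ, Lin 1 (V 1 a) t₁ τ G u μ →
      0 < u t₁ ∧ 0.85 * u t₁ < u t₁ + μ t₁ / t₁ ∧ u t₁ + μ t₁ / t₁ < 1.1 * u t₁) :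
    ∃ τ' > 0, ∀ G u μ, Lin 1 (V 1 a) t τ' G u μ →
      0 < u t ∧ 0.85 * u t < u t + μ t / t ∧ u t + μ t / t < 1.1 * u t := by
  have ht0 : 0 < t := ht₁.trans_le ht
  refine ⟨min τ (1 / (200 * t ^ 2)), lt_min hτ (by positivity), fun G u μ hl => ?_⟩
  have h1 := hL G u μ (Lin_tol (hl.mono ht) (min_le_left _ _))
  have hI := hl.linI ht₁
  apply cone_inv (d := u) (e := fun t => u t + μ t / t) (G := G) (t₁ := t₁) (t := t) ht₁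
    _ _ _ h1.1 h1.2.1 h1.2.2 t (right_mem_Icc.2 ht)
  · intro s hs
    have hs0 := ht₁.trans_le hs.1
    refine (hI.du s hs).congr_deriv ?_
    field_simp
    ring
  · intro s hs
    exact linI_xi' hI ht₁ hs
  · intro s hs
    have hs0 := ht₁.trans_le hs.1
    have hGs := abs_le.1 (hI.hG s hs)
    have h2 : s ^ 2 * min τ (1 / (200 * t ^ 2)) ≤ 1 / 200 := by
      calc s ^ 2 * min τ (1 / (200 * t ^ 2)) ≤ t ^ 2 * (1 / (200 * t ^ 2)) := by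
            have := hs.2
            gcongr
            exact min_le_right _ _
        _ = 1 / 200 := by field_simp
    have hv := (hg s hs).1
    obtain ⟨d1, d2⟩ := dd_bd (s := s) (U := 0.029) hv hv
      (ha.V_le ht₁ hs.1) (ha.V_le ht₁ hs.1) ((ha.w_le ht₁ hg hs).trans ha.hw)
      ((ha.w_le ht₁ hg hs).trans ha.hw)
    rw [dd_self] at d1 d2
    have h3 : s ^ 2 * (-(min τ (1 / (200 * t ^ 2)))) ≤ s ^ 2 * (G s - fp 1 (V 1 a s)) := by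
      gcongr; exact hGs.1
    have h4 : s ^ 2 * (G s - fp 1 (V 1 a s)) ≤ s ^ 2 * (min τ (1 / (200 * t ^ 2))) := by
      gcongr; exact hGs.2
    generalize min τ (1 / (200 * t ^ 2)) = q at h2 h3 h4
    norm_num at h2 d2 ⊢
    constructor
    · linarith
    · linarith

/-- the leaves below solutions are of type `R` -/
lemma locR_of_dn {a t₁ τ : ℝ} (ht₁ : 0 < t₁) (ha : Hyp a t₁) (hτ : 0 < τ) (hd : Dn a t₁)
    (hL : ∀ G u μ, Lin 1 (V 1 a) t₁ τ G u μ →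
      0 < u t₁ ∧ 0.85 * u t₁ < u t₁ + μ t₁ / t₁ ∧ u t₁ + μ t₁ / t₁ < 1.1 * u t₁) :
    LocR a := by
  -- common part
  have key : ∀ t, t₁ ≤ t → 0 < V 1 a t → P 1 a t ≤ 0 → w a t ≤ 0.029 →
      (∃ τ' > 0, ∀ G u μ, Lin 1 (V 1 a) t τ' G u μ →
        0 < u t ∧ 0.85 * u t < u t + μ t / t ∧ u t + μ t / t < 1.1 * u t) → LocR a := by
    intro t ht hV hP hw ⟨τ', hτ', hL'⟩
    have ht0 := ht₁.trans_le ht
    have hW : t ^ 2 * (V 1 a t ^ 3 + 2 * V 1 a t ^ 6) ≤ 0.058 := by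
      have h1 : t ^ 2 * (V 1 a t ^ 3 + 2 * V 1 a t ^ 6) ≤ 2 * w a t := by
        unfold w
        have : 0 ≤ t ^ 2 * V 1 a t ^ 3 := by positivity
        linarith
      norm_num at hw ⊢
      linarith
    refine locR_of_data ha.ha ha.ha2 ht0 hτ' hV hP (by norm_num at hW ⊢; linarith)
      fun G u μ hl => ?_
    obtain ⟨q1, q2, q3⟩ := hL' G u μ hl
    refine ⟨q1, lt_of_le_of_lt ?_ q2⟩
    have : 4.3 * (t ^ 2 * (V 1 a t ^ 3 + 2 * V 1 a t ^ 6)) ≤ 0.85 := by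
      norm_num at hW ⊢; linarith
    gcongr
  rcases hd with hd | ⟨σ, k1, k2, k3⟩
  · exact key t₁ le_rfl ha.hV hd.le ha.hw ⟨τ, hτ, hL⟩
  · have hr := right_mem_Icc.2 k1
    exact key σ k1 (k2 σ hr).1 k3.le ((ha.w_le ht₁ k2 hr).trans ha.hw)
      (lin_cone ht₁ k1 ha hτ k2 hL)

/-- **The corridor theorem.** -/
theorem corridor {al ar t₁ u₁ τ : ℝ} (hal : 0 < al) (hlr : al < ar) (har : ar < 2)
    (ht₁ : 0 < t₁) (hu : u₁ ≤ 0.029) (hτ : 0 < τ)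
    (hV : ∀ a ∈ Icc al ar, 0 < V 1 a t₁ ∧ V 1 a t₁ ≤ 1 / 20)
    (h3 : ∀ a ∈ Icc al ar, 3 * (V 1 a t₁ + M 1 a t₁ / t₁) ≤ V 1 a t₁)
    (hw : ∀ a ∈ Icc al ar, t₁ ^ 2 * (V 1 a t₁ ^ 3 + V 1 a t₁ ^ 6) ≤ u₁)
    (hL : ∀ a ∈ Icc al ar, ∀ G u μ, Lin 1 (V 1 a) t₁ τ G u μ →
      0 < u t₁ ∧ 0.85 * u t₁ < u t₁ + μ t₁ / t₁ ∧ u t₁ + μ t₁ / t₁ < 1.1 * u t₁)
    (hl : V 1 al t₁ + M 1 al t₁ / t₁ < 0)
    (hr : 0.05 * V 1 ar t₁ < V 1 ar t₁ + M 1 ar t₁ / t₁) :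
    ∃ a₀ ∈ Ioo al ar, ¬ Crosses a₀ ∧ (∀ a ∈ Ico al a₀, LocR a) ∧
      ∀ a ∈ Ioc a₀ ar, ∃ t₂, t₁ ≤ t₂ ∧
        (∀ s ∈ Icc t₁ t₂, 0 < V 1 a s ∧ 0 ≤ V 1 a s + M 1 a s / s ∧
          3 * (V 1 a s + M 1 a s / s) ≤ V 1 a s ∧ s ^ 2 * (V 1 a s ^ 3 + V 1 a s ^ 6) ≤ u₁) ∧
        3 * (V 1 a t₂ + M 1 a t₂ / t₂) = V 1 a t₂ ∧
        ∃ τ' > 0, ∀ G u μ, Lin 1 (V 1 a) t₂ τ' G u μ →
          0 < u t₂ ∧ 0.85 * u t₂ < u t₂ + μ t₂ / t₂ ∧ u t₂ + μ t₂ / t₂ < 1.1 * u t₂ := by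
  have hH : ∀ a ∈ Icc al ar, Hyp a t₁ := fun a ha =>
    ⟨hal.trans_le ha.1, ha.2.trans_lt har, (hV a ha).1, (hV a ha).2, h3 a ha,
      (hw a ha).trans hu⟩
  have hK : ∀ a ∈ Icc al ar, ∀ b ∈ Icc al ar, a < b → ¬ Dn a t₁ → Up b t₁ := by
    intro a ha b hb hab hd
    obtain ⟨q1, q2, q3⟩ := order ht₁ hτ hH hL ha hb hab
    exact up_of_not_dn ht₁ (hH a ha) (hH b hb) q1 q2 q3 hd
  have hdisj : ∀ a ∈ Icc al ar, Dn a t₁ → Up a t₁ → False := fun a ha =>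
    (hH a ha).disj ht₁
  have hlow : ∀ a ∈ Icc al ar, ∀ b ∈ Icc al ar, a < b → Dn b t₁ → Dn a t₁ := by
    intro a ha b hb hab hd
    by_contra h
    exact hdisj b hb hd (hK a ha b hb hab h)
  have hlm : al ∈ Icc al ar := left_mem_Icc.2 hlr.le
  have hrm : ar ∈ Icc al ar := right_mem_Icc.2 hlr.le
  have hDl : Dn al t₁ := Or.inl hl
  have hUr : Up ar t₁ := right_up ht₁ (hH ar hrm) hr
  set S : Set ℝ := {a | a ∈ Icc al ar ∧ Dn a t₁} with hS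
  have hSne : S.Nonempty := ⟨al, hlm, hDl⟩
  have hSbdd : BddAbove S := ⟨ar, fun a ha => ha.1.2⟩
  set a₀ := sSup S with ha₀
  have hm : a₀ ∈ Icc al ar :=
    ⟨le_csSup hSbdd ⟨hlm, hDl⟩, csSup_le hSne fun a ha => ha.1.2⟩
  have hnD : ¬ Dn a₀ t₁ := by
    intro hd
    obtain ⟨δ, hδ, h⟩ := open_dn ht₁ ((hH a₀ hm).dn' ht₁ hd)
    have hne : a₀ ≠ ar := fun h => hdisj ar hrm (h ▸ hd) hUr
    have hlt : a₀ < ar := lt_of_le_of_ne hm.2 hne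
    obtain ⟨x, hx1, hx2⟩ := exists_between (lt_min (lt_add_of_pos_right a₀ hδ) hlt)
    have hxm : x ∈ Icc al ar := ⟨hm.1.trans hx1.le, (hx2.trans_le (min_le_right _ _)).le⟩
    have hxd : Dn x t₁ := (hH x hxm).dn_of ht₁ (h x (by
      have := hx2.trans_le (min_le_left _ _)
      rw [abs_lt]; constructor <;> linarith))
    exact absurd (le_csSup hSbdd (show x ∈ S from ⟨hxm, hxd⟩)) (not_le.2 hx1)
  have hnU : ¬ Up a₀ t₁ := by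
    intro hu'
    obtain ⟨δ, hδ, h⟩ := open_up ht₁ ((hH a₀ hm).up' ht₁ hu')
    obtain ⟨x, hx, hxlt⟩ := exists_lt_of_lt_csSup hSne (show a₀ - δ < sSup S by
      rw [← ha₀]; linarith)
    have hxle : x ≤ a₀ := le_csSup hSbdd hx
    exact hdisj x hx.1 hx.2 ((hH x hx.1).up_of ht₁ (h x (by
      rw [abs_lt]; constructor <;> linarith)))
  have hstay : ∀ t, t₁ ≤ t → Good a₀ t := by
    rcases (hH a₀ hm).trichotomy ht₁ with k | k | k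
    · exact k
    · exact absurd k hnD
    · exact absurd k hnU
  have hne1 : al ≠ a₀ := fun h => hnD (h ▸ hDl)
  have hne2 : a₀ ≠ ar := fun h => hnU (h ▸ hUr)
  refine ⟨a₀, ⟨lt_of_le_of_ne hm.1 hne1, lt_of_le_of_ne hm.2 hne2⟩, ?_, ?_, ?_⟩
  · rintro ⟨t, ht0, ht⟩
    rcases le_or_gt t₁ t with h | h
    · exact absurd ht (hstay t h).1.ne'
    · have h1 := (V_strictAntiOn one_mem (hH a₀ hm).ha) (mem_Ici.2 ht0.le)
        (mem_Ici.2 ht₁.le) h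
      have := (hV a₀ hm).1
      linarith
  · intro a ha
    have ham : a ∈ Icc al ar := ⟨ha.1, ha.2.le.trans hm.2⟩
    obtain ⟨x, hx, hxlt⟩ := exists_lt_of_lt_csSup hSne (show a < sSup S from ha.2)
    exact locR_of_dn ht₁ (hH a ham) hτ (hlow a ham x hx.1 hxlt hx.2) (hL a ham)
  · intro a ha
    have ham : a ∈ Icc al ar := ⟨hm.1.trans ha.1.le, ha.2⟩
    obtain ⟨t₂, k1, k2, k3⟩ := hK a₀ hm a ham ha.1 hnD
    refine ⟨t₂, k1, fun s hs => ?_, k3, lin_cone ht₁ k1 (hH a ham) hτ k2 (hL a ham)⟩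
    obtain ⟨g1, g2, g3⟩ := k2 s hs
    exact ⟨g1, g2, g3, ((hH a ham).w_le ht₁ k2 hs).trans (hw a ham)⟩

end LinNi.H54
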