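import Pool.Agent.Lib.MP_0170ef_an_h54.LemmaA

/-!
The corridor `0 ≤ t z'/z ≤ 1/3`: exactly one initial value in a window stays in it for ever.
-/

set_option autoImplicit false

open Set Filter Topology

namespace LinNi.H54

open LinNi

/-- An invariant cone for `d' = (e - d)/s`, `e' = - s G d`. -/
lemma cone_inv {d e G : ℝ → ℝ} {t₁ t : ℝ} (ht₁ : 0 < t₁)
    (hd : ∀ s ∈ Icc t₁ t, HasDerivAt d ((e s - d s) / s) s)
    (he : ∀ s ∈ Icc t₁ t, HasDerivAt e (-(s * (G s * d s))) s)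
    (hG : ∀ s ∈ Icc t₁ t, -0.11 ≤ s ^ 2 * G s ∧ s ^ 2 * G s ≤ 0.1275)
    (h1 : 0 < d t₁) (h2 : 0.85 * d t₁ < e t₁) (h3 : e t₁ < 1.1 * d t₁) :
    ∀ s ∈ Icc t₁ t, 0 < d s ∧ 0.85 * d s < e s ∧ e s < 1.1 * d s := by
  apply cont_ind
  · intro s hs hb
    have hsub : ∀ r ∈ Icc t₁ s, r ∈ Icc t₁ t := fun r hr => ⟨hr.1, hr.2.trans hs.2⟩
    have hs0 : 0 < s := ht₁.trans_le hs.1
    have m1 : MonotoneOn (fun r => r * d r) (Icc t₁ s) := by
      apply monoOn_of (f' := fun r => e r)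
      · intro r hr
        have hr0 : 0 < r := ht₁.trans_le hr.1
        refine ((hasDerivAt_id' r).fun_mul (hd r (hsub r hr))).congr_deriv ?_
        field_simp
        ring
      · intro r hr
        obtain ⟨a1, a2, a3⟩ := hb r ⟨hr.1.le, hr.2⟩
        linarith
    have m2 : MonotoneOn (fun r => r * (e r - 0.85 * d r)) (Icc t₁ s) := by
      apply monoOn_of (f' := fun r => 0.15 * (e r - 0.85 * d r) + d r * (0.1275 - r ^ 2 * G r))
      · intro r hr
        have hr0 : 0 < r := ht₁.trans_le hr.1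
        refine ((hasDerivAt_id' r).fun_mul ((he r (hsub r hr)).fun_sub
          ((hd r (hsub r hr)).const_mul 0.85))).congr_deriv ?_
        field_simp
        ring
      · intro r hr
        obtain ⟨a1, a2, a3⟩ := hb r ⟨hr.1.le, hr.2⟩
        have a4 := (hG r (hsub r (Ioo_subset_Icc_self hr))).2
        have a5 : 0 ≤ d r * (0.1275 - r ^ 2 * G r) := mul_nonneg a1.le (by linarith)
        linarith
    have m3 : MonotoneOn (fun r => r ^ 2 * (1.1 * d r - e r)) (Icc t₁ s) := by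
      apply monoOn_of (f' := fun r => 0.9 * (r * (1.1 * d r - e r)) +
        r * (d r * (0.11 + r ^ 2 * G r)))
      · intro r hr
        have hr0 : 0 < r := ht₁.trans_le hr.1
        refine ((hasDerivAt_pow 2 r).fun_mul (((hd r (hsub r hr)).const_mul 1.1).fun_sub
          (he r (hsub r hr)))).congr_deriv ?_
        field_simp
        ring
      · intro r hr
        have hr0 : 0 < r := ht₁.trans hr.1
        obtain ⟨a1, a2, a3⟩ := hb r ⟨hr.1.le, hr.2⟩
        have a4 := (hG r (hsub r (Ioo_subset_Icc_self hr))).1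
        have a5 : 0 ≤ r * (d r * (0.11 + r ^ 2 * G r)) :=
          mul_nonneg hr0.le (mul_nonneg a1.le (by linarith))
        have a6 : 0 ≤ r * (1.1 * d r - e r) := mul_nonneg hr0.le (by linarith)
        linarith
    have q1 := m1 (left_mem_Icc.2 hs.1) (right_mem_Icc.2 hs.1) hs.1
    have q2 := m2 (left_mem_Icc.2 hs.1) (right_mem_Icc.2 hs.1) hs.1
    have q3 := m3 (left_mem_Icc.2 hs.1) (right_mem_Icc.2 hs.1) hs.1
    simp only at q1 q2 q3
    have p1 : 0 < s * d s := lt_of_lt_of_le (mul_pos ht₁ h1) q1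
    have p2 : 0 < s * (e s - 0.85 * d s) := lt_of_lt_of_le (mul_pos ht₁ (by linarith)) q2
    have p3 : 0 < s ^ 2 * (1.1 * d s - e s) :=
      lt_of_lt_of_le (mul_pos (by positivity) (by linarith)) q3
    have p2' := (pos_iff_pos_of_mul_pos p2).1 hs0
    have p3' := (pos_iff_pos_of_mul_pos p3).1 (by positivity)
    exact ⟨(pos_iff_pos_of_mul_pos p1).1 hs0, by linarith, by linarith⟩
  · intro s hs hp
    have c1 := (hd s hs).continuousAt
    have c2 := (he s hs).continuousAt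
    obtain ⟨δ₁, hδ₁, k1⟩ := open_of_cont c1 hp.1
    obtain ⟨δ₂, hδ₂, k2⟩ := open_of_cont (f := fun t => e t - 0.85 * d t)
      (c2.sub (c1.const_mul 0.85)) (by linarith [hp.2.1])
    obtain ⟨δ₃, hδ₃, k3⟩ := open_of_cont (f := fun t => 1.1 * d t - e t)
      ((c1.const_mul 1.1).sub c2) (by linarith [hp.2.2])
    refine ⟨min δ₁ (min δ₂ δ₃), lt_min hδ₁ (lt_min hδ₂ hδ₃), fun r _ hr hr' => ?_⟩
    have n1 := min_le_left δ₁ (min δ₂ δ₃)
    have n2 := (min_le_right δ₁ (min δ₂ δ₃)).trans (min_le_left _ _)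
    have n3 := (min_le_right δ₁ (min δ₂ δ₃)).trans (min_le_right _ _)
    have b1 := k1 r hr (by linarith)
    have b2 := k2 r hr (by linarith)
    have b3 := k3 r hr (by linarith)
    exact ⟨b1, by linarith, by linarith⟩

/-- in the corridor at time `t` -/
def Good (a t : ℝ) : Prop := 0 < V 1 a t ∧ 0 ≤ P 1 a t ∧ 3 * P 1 a t ≤ V 1 a t

noncomputable def w (a t : ℝ) : ℝ := t ^ 2 * (V 1 a t ^ 3 + V 1 a t ^ 6)

lemma hasDerivAt_V' {a t : ℝ} (ht : 0 < t) :
    HasDerivAt (V 1 a) ((P 1 a t - V 1 a t) / t) t := by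
  refine (solAt_VM one_mem a ht.ne').1.congr_deriv ?_
  unfold P
  field_simp
  ring

lemma cont_P {a t : ℝ} (ht : 0 < t) : ContinuousAt (P 1 a) t :=
  (hasDerivAt_P one_mem a ht).continuousAt

lemma contV {a t : ℝ} : ContinuousAt (V 1 a) t := (V_cont one_mem a).continuousAt

lemma P_strictAntiOn {a s t : ℝ} (hs : 0 < s) (h : ∀ r ∈ Icc s t, 0 < V 1 a r) :
    StrictAntiOn (P 1 a) (Icc s t) := by
  apply strictAntiOn_of_deriv_neg (convex_Icc _ _)
  · intro r hr
    exact (cont_P (hs.trans_le hr.1)).continuousWithinAt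
  · intro r hr
    rw [interior_Icc] at hr
    have ht0 := hs.trans hr.1
    rw [(hasDerivAt_P one_mem a ht0).deriv]
    have := F_pos one_mem (h r (Ioo_subset_Icc_self hr))
    have : 0 < r * F 1 (V 1 a r) := by positivity
    linarith

lemma w_anti {a s t : ℝ} (hs : 0 < s) (h : ∀ r ∈ Icc s t, Good a r) :
    AntitoneOn (w a) (Icc s t) := by
  apply antiOn_of (f' := fun r => r * (V 1 a r ^ 2 * (3 * P 1 a r - V 1 a r) +
    V 1 a r ^ 5 * (6 * P 1 a r - 4 * V 1 a r)))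
  · intro r hr
    have hr0 : 0 < r := hs.trans_le hr.1
    have e := hasDerivAt_V' (a := a) hr0
    have := (hasDerivAt_pow 2 r).fun_mul ((e.fun_pow 3).fun_add (e.fun_pow 6))
    refine this.congr_deriv ?_
    field_simp
    ring
  · intro r hr
    have hr0 : 0 < r := hs.trans hr.1
    obtain ⟨h1, h2, h3⟩ := h r (Ioo_subset_Icc_self hr)
    have a1 : V 1 a r ^ 2 * (3 * P 1 a r - V 1 a r) ≤ 0 :=
      mul_nonpos_of_nonneg_of_nonpos (by positivity) (by linarith)
    have a2 : V 1 a r ^ 5 * (6 * P 1 a r - 4 * V 1 a r) ≤ 0 :=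
      mul_nonpos_of_nonneg_of_nonpos (by positivity) (by linarith)
    exact mul_nonpos_of_nonneg_of_nonpos hr0.le (by linarith)

/-- `z` is nondecreasing while `P ≥ 0` -/
lemma V_pos_of_P {a s t : ℝ} (hs : 0 < s) (hst : s ≤ t) (hV : 0 < V 1 a s)
    (h : ∀ r ∈ Ioo s t, 0 ≤ P 1 a r) : 0 < V 1 a t := by
  have h1 : MonotoneOn (fun t => t * V 1 a t) (Icc s t) :=
    monoOn_of (fun r hr => hasDerivAt_Z one_mem a (hs.trans_le hr.1)) h
  have h2 := h1 (left_mem_Icc.2 hst) (right_mem_Icc.2 hst) hst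
  simp only at h2
  have h3 : 0 < t * V 1 a t := lt_of_lt_of_le (mul_pos hs hV) h2
  exact (pos_iff_pos_of_mul_pos h3).1 (hs.trans_le hst)

lemma exit_lemma {a t₁ : ℝ} (ht₁ : 0 < t₁) (h1 : Good a t₁) :
    (∀ t, t₁ ≤ t → Good a t) ∨ ∃ τ, t₁ ≤ τ ∧ (∀ s ∈ Icc t₁ τ, Good a s) ∧
      (P 1 a τ = 0 ∨ 3 * P 1 a τ = V 1 a τ) := by
  by_contra hcon
  push Not at hcon
  obtain ⟨⟨t, ht, hbad⟩, hno⟩ := hcon
  apply hbad
  have key : ∀ s ∈ Icc t₁ t, ∀ r ∈ Icc t₁ s, Good a r := by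
    apply cont_ind
    · intro s hs hb r hr
      rcases lt_or_ge r s with h2 | h2
      · exact hb r ⟨hr.1, h2⟩ r ⟨hr.1, le_rfl⟩
      have hrs : r = s := le_antisymm hr.2 h2
      subst hrs
      rcases eq_or_lt_of_le hr.1 with h3 | h3
      · rw [← h3]; exact h1
      have hg : ∀ q ∈ Ico t₁ r, Good a q := fun q hq => hb q hq q ⟨hq.1, le_rfl⟩
      have hr0 : 0 < r := ht₁.trans h3
      have hmem : ∀ᶠ q in 𝓝[<] r, q ∈ Ico t₁ r := by
        filter_upwards [Ioo_mem_nhdsLT h3] with q hq using ⟨hq.1.le, hq.2⟩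
      have hP : 0 ≤ P 1 a r := by
        refine ge_of_tendsto ((cont_P hr0).mono_left (nhdsWithin_le_nhds (s := Iio r))) ?_
        filter_upwards [hmem] with q hq using (hg q hq).2.1
      have h3P : 0 ≤ V 1 a r - 3 * P 1 a r := by
        have hc : Tendsto (fun q => V 1 a q - 3 * P 1 a q) (𝓝[<] r) (𝓝 (V 1 a r - 3 * P 1 a r)) :=
          ((contV.tendsto).mono_left nhdsWithin_le_nhds).sub
            (((cont_P hr0).tendsto.mono_left nhdsWithin_le_nhds).const_mul 3)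
        refine ge_of_tendsto hc ?_
        filter_upwards [hmem] with q hq
        linarith [(hg q hq).2.2]
      refine ⟨V_pos_of_P ht₁ h3.le h1.1 (fun q hq => (hg q ⟨hq.1.le, hq.2⟩).2.1), hP, by linarith⟩
    · intro s hs hp
      have hs0 : 0 < s := ht₁.trans_le hs.1
      obtain ⟨hn1, hn2⟩ := hno s hs.1 hp
      obtain ⟨g1, g2, g3⟩ := hp s ⟨hs.1, le_rfl⟩
      have g2' : 0 < P 1 a s := lt_of_le_of_ne g2 hn1.symm
      have g3' : 0 < V 1 a s - 3 * P 1 a s := by
        have := lt_of_le_of_ne g3 hn2; linarith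
      obtain ⟨δ₁, hδ₁, k1⟩ := open_of_cont (contV (a := a)) g1
      obtain ⟨δ₂, hδ₂, k2⟩ := open_of_cont (cont_P hs0) g2'
      obtain ⟨δ₃, hδ₃, k3⟩ := open_of_cont (f := fun t => V 1 a t - 3 * P 1 a t)
        (contV.sub ((cont_P hs0).const_mul 3)) g3'
      refine ⟨min δ₁ (min δ₂ δ₃), lt_min hδ₁ (lt_min hδ₂ hδ₃), fun r _ hr hr' q hq => ?_⟩
      rcases le_or_gt q s with h4 | h4
      · exact hp q ⟨hq.1, h4⟩
      have n1 := min_le_left δ₁ (min δ₂ δ₃)
      have n2 := (min_le_right δ₁ (min δ₂ δ₃)).trans (min_le_left _ _)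
      have n3 := (min_le_right δ₁ (min δ₂ δ₃)).trans (min_le_right _ _)
      have b1 := k1 q h4.le (by linarith [hq.2])
      have b2 := k2 q h4.le (by linarith [hq.2])
      have b3 := k3 q h4.le (by linarith [hq.2])
      exact ⟨b1, b2.le, by linarith⟩
  exact key t ⟨ht, le_rfl⟩ t ⟨ht, le_rfl⟩

/-- The upper boundary is crossed strictly. -/
lemma top_strict {a s : ℝ} (hs : 0 < s) (hV : 0 < V 1 a s) (hV2 : V 1 a s ≤ 1 / 20)
    (hw : w a s ≤ 0.029) (h : 3 * P 1 a s = V 1 a s) :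
    ∃ δ > 0, ∀ r, s < r → r < s + δ → V 1 a r < 3 * P 1 a r := by
  have hd : HasDerivAt (fun t => 3 * P 1 a t - V 1 a t)
      (3 * (-(s * F 1 (V 1 a s))) - (P 1 a s - V 1 a s) / s) s :=
    ((hasDerivAt_P one_mem a hs).const_mul 3).fun_sub (hasDerivAt_V' hs)
  have hF : F 1 (V 1 a s) = V 1 a s * (V 1 a s ^ 3 + V 1 a s ^ 6) := by
    rw [F_of_mem ⟨by linarith, by linarith⟩]; unfold f; ring
  have hpos : 0 < 3 * (-(s * F 1 (V 1 a s))) - (P 1 a s - V 1 a s) / s := by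
    have e : 3 * (-(s * F 1 (V 1 a s))) - (P 1 a s - V 1 a s) / s =
        (V 1 a s / s) * (2 / 3 - 3 * w a s) := by
      rw [hF]
      have hP : P 1 a s = V 1 a s / 3 := by linarith
      rw [hP]
      unfold w
      field_simp
      ring
    rw [e]
    have : 0 < 2 / 3 - 3 * w a s := by linarith
    positivity
  have h1 := hasDerivAt_iff_tendsto_slope.1 hd
  have h2 := h1.eventually (lt_mem_nhds hpos)
  rw [eventually_nhdsWithin_iff] at h2
  obtain ⟨δ, hδ, h3⟩ := Metric.eventually_nhds_iff.1 h2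
  refine ⟨δ, hδ, fun r hr hr' => ?_⟩
  have h4 := h3 (y := r) (by rw [Real.dist_eq, abs_lt]; constructor <;> linarith)
    (by simp only [mem_compl_iff, mem_singleton_iff]; exact hr.ne')
  rw [slope_def_field] at h4
  have h5 : 0 < r - s := by linarith
  have h6 : 3 * P 1 a s - V 1 a s = 0 := by linarith
  rw [h6, sub_zero] at h4
  have h7 := (div_pos_iff_of_pos_right h5).1 h4
  linarith

end LinNi.H54
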