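import Pool.Agent.Lib.MP_0170ef_an_h54.Corridor

set_option autoImplicit false

open Set Filter Topology

namespace LinNi.H54

open LinNi

/-- the data at time `t₁` -/
structure Hyp (a t₁ : ℝ) : Prop where
  ha : 0 < a
  ha2 : a < 2
  hV : 0 < V 1 a t₁
  hV2 : V 1 a t₁ ≤ 1 / 20
  h3 : 3 * P 1 a t₁ ≤ V 1 a t₁
  hw : w a t₁ ≤ 0.029

lemma Hyp.V_le {a t₁ s : ℝ} (h : Hyp a t₁) (ht₁ : 0 < t₁) (hs : t₁ ≤ s) : V 1 a s ≤ 1 / 20 := by
  refine le_trans ?_ h.hV2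
  exact (V_strictAntiOn one_mem h.ha).antitoneOn (mem_Ici.2 ht₁.le)
    (mem_Ici.2 (ht₁.le.trans hs)) hs

lemma Hyp.w_le {a t₁ t : ℝ} (_h : Hyp a t₁) (ht₁ : 0 < t₁) (hg : ∀ s ∈ Icc t₁ t, Good a s)
    {s : ℝ} (hs : s ∈ Icc t₁ t) : w a s ≤ w a t₁ :=
  w_anti ht₁ hg (left_mem_Icc.2 (hs.1.trans hs.2)) hs hs.1

/-- state leaves below -/
def Dn (a t₁ : ℝ) : Prop :=
  P 1 a t₁ < 0 ∨ ∃ τ, t₁ ≤ τ ∧ (∀ s ∈ Icc t₁ τ, Good a s) ∧ P 1 a τ = 0

/-- state leaves above -/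
def Up (a t₁ : ℝ) : Prop :=
  ∃ τ, t₁ ≤ τ ∧ (∀ s ∈ Icc t₁ τ, Good a s) ∧ 3 * P 1 a τ = V 1 a τ

/-- state leaves below, strict version -/
def Dn' (a t₁ : ℝ) : Prop :=
  ∃ t, t₁ ≤ t ∧ P 1 a t < 0 ∧ ∀ s ∈ Icc t₁ t, 0 < V 1 a s ∧ 3 * P 1 a s < V 1 a s

/-- state leaves above, strict version -/
def Up' (a t₁ : ℝ) : Prop :=
  ∃ t, t₁ ≤ t ∧ V 1 a t < 3 * P 1 a t ∧ ∀ s ∈ Icc t₁ t, 0 < V 1 a s ∧ 0 < P 1 a s

lemma Hyp.good {a t₁ : ℝ} (h : Hyp a t₁) (hP : ¬ P 1 a t₁ < 0) : Good a t₁ :=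
  ⟨h.hV, not_lt.1 hP, h.h3⟩

/-- strictness of the upper inequality before leaving -/
lemma Hyp.top {a t₁ t s : ℝ} (h : Hyp a t₁) (ht₁ : 0 < t₁) (hg : ∀ s ∈ Icc t₁ t, Good a s)
    (hs : s ∈ Ico t₁ t) : 3 * P 1 a s < V 1 a s := by
  have hs' : s ∈ Icc t₁ t := Ico_subset_Icc_self hs
  refine lt_of_le_of_ne (hg s hs').2.2 fun he => ?_
  obtain ⟨δ, hδ, h1⟩ := top_strict (ht₁.trans_le hs.1) (hg s hs').1 (h.V_le ht₁ hs.1)
    ((h.w_le ht₁ hg hs').trans h.hw) he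
  obtain ⟨r, hr1, hr2⟩ := exists_between (lt_min (lt_add_of_pos_right s hδ) hs.2)
  have h2 := h1 r hr1 (hr2.trans_le (min_le_left _ _))
  have h3 := (hg r ⟨hs.1.trans hr1.le, (hr2.trans_le (min_le_right _ _)).le⟩).2.2
  linarith

/-- strictness of the lower inequality before leaving -/
lemma bot_strict {a t₁ t s : ℝ} (ht₁ : 0 < t₁) (hg : ∀ s ∈ Icc t₁ t, Good a s)
    (hs : s ∈ Ico t₁ t) : 0 < P 1 a s := by
  have h1 := P_strictAntiOn ht₁ (fun r hr => (hg r hr).1) (Ico_subset_Icc_self hs)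
    (right_mem_Icc.2 (hs.1.trans hs.2.le)) hs.2
  exact (hg t (right_mem_Icc.2 (hs.1.trans hs.2.le))).2.1.trans_lt h1

lemma Hyp.trichotomy {a t₁ : ℝ} (h : Hyp a t₁) (ht₁ : 0 < t₁) :
    (∀ t, t₁ ≤ t → Good a t) ∨ Dn a t₁ ∨ Up a t₁ := by
  by_cases hP : P 1 a t₁ < 0
  · exact Or.inr (Or.inl (Or.inl hP))
  rcases exit_lemma ht₁ (h.good hP) with h1 | ⟨τ, h1, h2, h3 | h3⟩
  · exact Or.inl h1
  · exact Or.inr (Or.inl (Or.inr ⟨τ, h1, h2, h3⟩))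
  · exact Or.inr (Or.inr ⟨τ, h1, h2, h3⟩)

lemma Hyp.disj {a t₁ : ℝ} (h : Hyp a t₁) (ht₁ : 0 < t₁) (hd : Dn a t₁) (hu : Up a t₁) : False := by
  obtain ⟨τ, h1, h2, h3⟩ := hu
  rcases hd with hd | ⟨σ, k1, k2, k3⟩
  · exact absurd (h2 t₁ (left_mem_Icc.2 h1)).2.1 (not_le.2 hd)
  rcases lt_trichotomy τ σ with h4 | h4 | h4
  · have := h.top ht₁ k2 ⟨h1, h4⟩
    linarith
  · subst h4
    have := (h2 τ (right_mem_Icc.2 h1)).1
    linarith
  · have := bot_strict ht₁ h2 ⟨k1, h4⟩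
    linarith

lemma Hyp.dn' {a t₁ : ℝ} (h : Hyp a t₁) (ht₁ : 0 < t₁) (hd : Dn a t₁) : Dn' a t₁ := by
  rcases hd with hd | ⟨τ, h1, h2, h3⟩
  · refine ⟨t₁, le_rfl, hd, fun s hs => ?_⟩
    have : s = t₁ := le_antisymm hs.2 hs.1
    subst this
    exact ⟨h.hV, by linarith [h.hV]⟩
  have hτ0 : 0 < τ := ht₁.trans_le h1
  have g1 := (h2 τ (right_mem_Icc.2 h1)).1
  obtain ⟨δ₁, hδ₁, k1⟩ := open_of_cont (contV (a := a)) g1
  obtain ⟨δ₂, hδ₂, k2⟩ := open_of_cont (f := fun t => V 1 a t - 3 * P 1 a t) (s := τ)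
    (contV.sub ((cont_P hτ0).const_mul 3)) (by rw [h3]; linarith)
  obtain ⟨t, ht1, ht2⟩ := exists_between (lt_min (lt_add_of_pos_right τ hδ₁)
    (lt_add_of_pos_right τ hδ₂))
  have hV : ∀ s ∈ Icc t₁ t, 0 < V 1 a s := by
    intro s hs
    rcases le_or_gt s τ with h4 | h4
    · exact (h2 s ⟨hs.1, h4⟩).1
    · exact k1 s h4.le ((hs.2.trans_lt ht2).trans_le (min_le_left _ _))
  refine ⟨t, h1.trans ht1.le, ?_, fun s hs => ⟨hV s hs, ?_⟩⟩
  · have := P_strictAntiOn ht₁ hV ⟨h1, ht1.le⟩ (right_mem_Icc.2 (h1.trans ht1.le)) ht1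
    rwa [h3] at this
  · rcases lt_or_ge s τ with h4 | h4
    · exact h.top ht₁ h2 ⟨hs.1, h4⟩
    · have := k2 s h4 ((hs.2.trans_lt ht2).trans_le (min_le_right _ _))
      linarith

lemma Hyp.dn_of {a t₁ : ℝ} (h : Hyp a t₁) (ht₁ : 0 < t₁) (hd : Dn' a t₁) : Dn a t₁ := by
  obtain ⟨t, h1, h2, h3⟩ := hd
  by_cases hP : P 1 a t₁ < 0
  · exact Or.inl hP
  rcases exit_lemma ht₁ (h.good hP) with k1 | ⟨τ, k1, k2, k3 | k3⟩
  · exact absurd (k1 t h1).2.1 (not_le.2 h2)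
  · exact Or.inr ⟨τ, k1, k2, k3⟩
  · exfalso
    rcases le_or_gt τ t with h4 | h4
    · have := (h3 τ ⟨k1, h4⟩).2
      linarith
    · exact absurd (k2 t ⟨h1, h4.le⟩).2.1 (not_le.2 h2)

lemma Hyp.up' {a t₁ : ℝ} (h : Hyp a t₁) (ht₁ : 0 < t₁) (hu : Up a t₁) : Up' a t₁ := by
  obtain ⟨τ, h1, h2, h3⟩ := hu
  have hτ0 : 0 < τ := ht₁.trans_le h1
  have g1 := (h2 τ (right_mem_Icc.2 h1)).1
  have g2 : 0 < P 1 a τ := by linarith
  obtain ⟨δ₁, hδ₁, k1⟩ := open_of_cont (contV (a := a)) g1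
  obtain ⟨δ₂, hδ₂, k2⟩ := open_of_cont (cont_P hτ0) g2
  obtain ⟨δ₃, hδ₃, k3⟩ := top_strict hτ0 g1 (h.V_le ht₁ h1)
    ((h.w_le ht₁ h2 (right_mem_Icc.2 h1)).trans h.hw) h3
  obtain ⟨t, ht1, ht2⟩ := exists_between (lt_min (lt_add_of_pos_right τ hδ₁)
    (lt_min (lt_add_of_pos_right τ hδ₂) (lt_add_of_pos_right τ hδ₃)))
  have n1 := ht2.trans_le (min_le_left _ _)
  have n2 := ht2.trans_le ((min_le_right _ _).trans (min_le_left _ _))
  have n3 := ht2.trans_le ((min_le_right _ _).trans (min_le_right _ _))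
  refine ⟨t, h1.trans ht1.le, k3 t ht1 n3, fun s hs => ?_⟩
  rcases le_or_gt s τ with h4 | h4
  · refine ⟨(h2 s ⟨hs.1, h4⟩).1, ?_⟩
    rcases lt_or_ge s τ with h5 | h5
    · exact bot_strict ht₁ h2 ⟨hs.1, h5⟩
    · have : s = τ := le_antisymm h4 h5
      rwa [this]
  · exact ⟨k1 s h4.le (hs.2.trans_lt n1), k2 s h4.le (hs.2.trans_lt n2)⟩

lemma Hyp.up_of {a t₁ : ℝ} (h : Hyp a t₁) (ht₁ : 0 < t₁) (hd : Up' a t₁) : Up a t₁ := by
  obtain ⟨t, h1, h2, h3⟩ := hd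
  have hg : Good a t₁ := ⟨h.hV, (h3 t₁ (left_mem_Icc.2 h1)).2.le, h.h3⟩
  rcases exit_lemma ht₁ hg with k1 | ⟨τ, k1, k2, k3 | k3⟩
  · exact absurd (k1 t h1).2.2 (not_le.2 h2)
  · exfalso
    rcases le_or_gt τ t with h4 | h4
    · have := (h3 τ ⟨k1, h4⟩).2
      linarith
    · exact absurd (k2 t ⟨h1, h4.le⟩).2.2 (not_le.2 h2)
  · exact ⟨τ, k1, k2, k3⟩

/-- continuous dependence -/
lemma close {a t₁ t ε : ℝ} (ht₁ : 0 < t₁) (hε : 0 < ε) : ∃ δ > 0, ∀ x, |x - a| < δ →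
    ∀ s ∈ Icc t₁ t, |V 1 x s - V 1 a s| < ε ∧ |P 1 x s - P 1 a s| < ε := by
  refine ⟨ε * Real.exp (-(480 * t)), by positivity, fun x hx s hs => ?_⟩
  have h1 := V_lip (a := x) (a' := a) one_mem (N := t) (t := s) ⟨ht₁.le.trans hs.1, hs.2⟩
  have h2 := ((radOn_VM one_mem x t).lip one_mem (radOn_VM one_mem a t) (t := s)
    ⟨ht₁.trans_le hs.1, hs.2⟩).2
  have h3 : |x - a| * Real.exp (480 * t) < ε := by
    have := mul_lt_mul_of_pos_right hx (Real.exp_pos (480 * t))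
    rwa [mul_assoc, ← Real.exp_add, neg_add_cancel, Real.exp_zero, mul_one] at this
  exact ⟨h1.trans_lt h3, h2.trans_lt h3⟩

lemma exists_min {f : ℝ → ℝ} {t₁ t : ℝ} (h : t₁ ≤ t) (hc : ContinuousOn f (Icc t₁ t))
    (hf : ∀ s ∈ Icc t₁ t, 0 < f s) : ∃ m > 0, ∀ s ∈ Icc t₁ t, m ≤ f s := by
  obtain ⟨x, hx, hm⟩ := isCompact_Icc.exists_isMinOn (nonempty_Icc.2 h) hc
  exact ⟨f x, hf x hx, fun s hs => hm hs⟩

lemma contP_on {a t₁ t : ℝ} (ht₁ : 0 < t₁) : ContinuousOn (P 1 a) (Icc t₁ t) :=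
  fun _ hs => (cont_P (ht₁.trans_le hs.1)).continuousWithinAt

lemma open_dn {a t₁ : ℝ} (ht₁ : 0 < t₁) (h : Dn' a t₁) : ∃ δ > 0, ∀ x, |x - a| < δ →
    Dn' x t₁ := by
  obtain ⟨t, h1, h2, h3⟩ := h
  obtain ⟨m₁, hm₁, k1⟩ := exists_min h1 (V_cont one_mem a).continuousOn (fun s hs => (h3 s hs).1)
  obtain ⟨m₂, hm₂, k2⟩ := exists_min h1 (f := fun s => V 1 a s - 3 * P 1 a s)
    ((V_cont one_mem a).continuousOn.sub (continuousOn_const.mul (contP_on ht₁)))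
    (fun s hs => by linarith [(h3 s hs).2])
  obtain ⟨δ, hδ, hx⟩ := close (a := a) (t := t) ht₁ (ε := min (min m₁ (m₂ / 4)) (-P 1 a t))
    (lt_min (lt_min hm₁ (by positivity)) (by linarith))
  refine ⟨δ, hδ, fun x hxa => ⟨t, h1, ?_, fun s hs => ?_⟩⟩
  · have := (abs_lt.1 ((hx x hxa t (right_mem_Icc.2 h1)).2.trans_le (min_le_right _ _))).2
    linarith
  · obtain ⟨q1, q2⟩ := hx x hxa s hs
    have e1 := abs_lt.1 (q1.trans_le ((min_le_left _ _).trans (min_le_left _ _)))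
    have e2 := abs_lt.1 (q1.trans_le ((min_le_left _ _).trans (min_le_right _ _)))
    have e3 := abs_lt.1 (q2.trans_le ((min_le_left _ _).trans (min_le_right _ _)))
    have f1 := k1 s hs
    have f2 := k2 s hs
    constructor
    · linarith [e1.1]
    · linarith [e2.1, e3.2]

lemma open_up {a t₁ : ℝ} (ht₁ : 0 < t₁) (h : Up' a t₁) : ∃ δ > 0, ∀ x, |x - a| < δ →
    Up' x t₁ := by
  obtain ⟨t, h1, h2, h3⟩ := h
  obtain ⟨m₁, hm₁, k1⟩ := exists_min h1 (V_cont one_mem a).continuousOn (fun s hs => (h3 s hs).1)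
  obtain ⟨m₂, hm₂, k2⟩ := exists_min h1 (contP_on ht₁) (fun s hs => (h3 s hs).2)
  obtain ⟨δ, hδ, hx⟩ := close (a := a) (t := t) ht₁
    (ε := min (min m₁ m₂) ((3 * P 1 a t - V 1 a t) / 4))
    (lt_min (lt_min hm₁ hm₂) (by linarith))
  refine ⟨δ, hδ, fun x hxa => ⟨t, h1, ?_, fun s hs => ?_⟩⟩
  · obtain ⟨q1, q2⟩ := hx x hxa t (right_mem_Icc.2 h1)
    have e1 := abs_lt.1 (q1.trans_le (min_le_right _ _))
    have e2 := abs_lt.1 (q2.trans_le (min_le_right _ _))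
    linarith [e1.2, e2.1]
  · obtain ⟨q1, q2⟩ := hx x hxa s hs
    have e1 := abs_lt.1 (q1.trans_le ((min_le_left _ _).trans (min_le_left _ _)))
    have e2 := abs_lt.1 (q2.trans_le ((min_le_left _ _).trans (min_le_right _ _)))
    have f1 := k1 s hs
    have f2 := k2 s hs
    constructor
    · linarith [e1.1]
    · linarith [e2.1]

/-- bounds for the coefficient of the difference of two solutions -/
lemma dd_bd {x y s U : ℝ} (hx : 0 < x) (hy : 0 < y) (hx2 : x ≤ 1 / 20) (hy2 : y ≤ 1 / 20)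
    (h1 : s ^ 2 * (x ^ 3 + x ^ 6) ≤ U) (h2 : s ^ 2 * (y ^ 3 + y ^ 6) ≤ U) :
    0 ≤ s ^ 2 * dd 1 x y ∧ s ^ 2 * dd 1 x y ≤ 4.1 * U := by
  constructor
  · unfold dd; positivity
  wlog hxy : x ≤ y generalizing x y
  · rw [dd_comm]; exact this hy hx hy2 hx2 h2 h1 (le_of_not_ge hxy)
  have h3 : dd 1 x y ≤ 4 * y ^ 3 + 7 * 1 * y ^ 6 :=
    dd_le zero_le_one hy.le hxy le_rfl (by rw [abs_of_pos hx]; exact hxy) (abs_of_pos hy).le
  have h4 : y ^ 3 ≤ (1 / 20) ^ 3 := by gcongr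
  have h5 : 7 * y ^ 6 ≤ 0.1 * y ^ 3 + 4.1 * y ^ 6 := by
    have h6 : y ^ 6 = y ^ 3 * y ^ 3 := by ring
    have h7 : 0 < y ^ 3 := by positivity
    have h8 : y ^ 3 * y ^ 3 ≤ y ^ 3 * (1 / 20) ^ 3 := by gcongr
    rw [h6]
    norm_num at h8 ⊢
    linarith
  calc s ^ 2 * dd 1 x y ≤ s ^ 2 * (4.1 * (y ^ 3 + y ^ 6)) := by
        gcongr; linarith
    _ = 4.1 * (s ^ 2 * (y ^ 3 + y ^ 6)) := by ring
    _ ≤ 4.1 * U := by gcongr

/-- two solutions in the corridor -/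
lemma pair {a b t₁ t : ℝ} (ht₁ : 0 < t₁) (ha : Hyp a t₁) (hb : Hyp b t₁)
    (h1 : V 1 a t₁ < V 1 b t₁)
    (h2 : 0.85 * (V 1 b t₁ - V 1 a t₁) < P 1 b t₁ - P 1 a t₁)
    (h3 : P 1 b t₁ - P 1 a t₁ < 1.1 * (V 1 b t₁ - V 1 a t₁))
    (hga : ∀ s ∈ Icc t₁ t, Good a s) (hgb : ∀ s ∈ Icc t₁ t, Good b s) :
    ∀ s ∈ Icc t₁ t, 0 < V 1 b s - V 1 a s ∧ 0.85 * (V 1 b s - V 1 a s) < P 1 b s - P 1 a s ∧
      P 1 b s - P 1 a s < 1.1 * (V 1 b s - V 1 a s) := by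
  apply cone_inv (d := fun s => V 1 b s - V 1 a s) (e := fun s => P 1 b s - P 1 a s)
    (G := fun s => dd 1 (V 1 b s) (V 1 a s)) ht₁
  · intro s hs
    have hs0 := ht₁.trans_le hs.1
    refine ((hasDerivAt_V' (a := b) hs0).fun_sub (hasDerivAt_V' (a := a) hs0)).congr_deriv ?_
    field_simp
    ring
  · intro s hs
    have hs0 := ht₁.trans_le hs.1
    refine ((hasDerivAt_P one_mem b hs0).fun_sub (hasDerivAt_P one_mem a hs0)).congr_deriv ?_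
    have e := F_eq_dd (c := 1) (x := V 1 b s) (y := V 1 a s)
      ⟨by linarith [(hgb s hs).1], by linarith [hb.V_le ht₁ hs.1]⟩
      ⟨by linarith [(hga s hs).1], by linarith [ha.V_le ht₁ hs.1]⟩
    rw [← e]
    ring
  · intro s hs
    obtain ⟨q1, q2⟩ := dd_bd (s := s) (U := 0.029) (hgb s hs).1 (hga s hs).1
      (hb.V_le ht₁ hs.1) (ha.V_le ht₁ hs.1) ((hb.w_le ht₁ hgb hs).trans hb.hw)
      ((ha.w_le ht₁ hga hs).trans ha.hw)
    constructor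
    · linarith
    · norm_num at q2 ⊢; linarith
  · linarith
  · exact h2
  · exact h3

/-- two solutions cannot both stay in the corridor for ever -/
lemma not_both {a b t₁ : ℝ} (ht₁ : 0 < t₁) (ha : Hyp a t₁) (hb : Hyp b t₁)
    (h1 : V 1 a t₁ < V 1 b t₁)
    (h2 : 0.85 * (V 1 b t₁ - V 1 a t₁) < P 1 b t₁ - P 1 a t₁)
    (h3 : P 1 b t₁ - P 1 a t₁ < 1.1 * (V 1 b t₁ - V 1 a t₁))
    (hga : ∀ s, t₁ ≤ s → Good a s) (hgb : ∀ s, t₁ ≤ s → Good b s) : False := by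
  have hp := fun t => pair ht₁ ha hb h1 h2 h3 (t := t) (fun s hs => hga s hs.1)
    (fun s hs => hgb s hs.1)
  have hmono : ∀ t, MonotoneOn (fun s => (V 1 b s - V 1 a s) ^ 2 / (s * V 1 b s ^ 2))
      (Icc t₁ t) := by
    intro t
    apply monoOn_of (f' := fun s => ((V 1 b s - V 1 a s) * V 1 b s *
      (2 * (P 1 b s - P 1 a s) * V 1 b s - (V 1 b s - V 1 a s) * V 1 b s -
        2 * (V 1 b s - V 1 a s) * P 1 b s)) / (s * V 1 b s ^ 2) ^ 2)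
    · intro s hs
      have hs0 := ht₁.trans_le hs.1
      have hV0 := (hgb s hs.1).1
      have e := (((hasDerivAt_V' (a := b) hs0).fun_sub
        (hasDerivAt_V' (a := a) hs0)).fun_pow 2).fun_div
        ((hasDerivAt_id' s).fun_mul ((hasDerivAt_V' (a := b) hs0).fun_pow 2))
        (by positivity)
      refine e.congr_deriv ?_
      congr 1
      field_simp
      ring
    · intro s hs
      obtain ⟨q1, q2, q3⟩ := hp t s (Ioo_subset_Icc_self hs)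
      obtain ⟨g1, g2, g3⟩ := hgb s hs.1.le
      apply div_nonneg _ (by positivity)
      apply mul_nonneg (by positivity)
      have a1 : 0 ≤ (P 1 b s - P 1 a s - 0.85 * (V 1 b s - V 1 a s)) * V 1 b s :=
        mul_nonneg (by linarith) g1.le
      have a2 : 0 ≤ (V 1 b s - V 1 a s) * (V 1 b s - 3 * P 1 b s) :=
        mul_nonneg q1.le (by linarith)
      have a3 : 0 ≤ (V 1 b s - V 1 a s) * V 1 b s := mul_nonneg q1.le g1.le
      nlinarith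
  set c := (V 1 b t₁ - V 1 a t₁) ^ 2 / (t₁ * V 1 b t₁ ^ 2) with hc
  have hc0 : 0 < c := by
    have := hb.hV
    have : 0 < V 1 b t₁ - V 1 a t₁ := by linarith
    positivity
  set t := max t₁ (1 / c) with ht
  have ht1 : t₁ ≤ t := le_max_left _ _
  have h4 := hmono t (left_mem_Icc.2 ht1) (right_mem_Icc.2 ht1) ht1
  simp only at h4
  rw [← hc] at h4
  have ht0 : 0 < t := ht₁.trans_le ht1
  obtain ⟨q1, q2, q3⟩ := hp t t (right_mem_Icc.2 ht1)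
  have g1 := (hgb t ht1).1
  have g2 := (hga t ht1).1
  rw [le_div_iff₀ (by positivity)] at h4
  have h5 : (V 1 b t - V 1 a t) ^ 2 < V 1 b t ^ 2 := by
    apply pow_lt_pow_left₀ (by linarith) q1.le two_ne_zero
  have h6 : 1 ≤ c * t := by
    have := mul_le_mul_of_nonneg_left (le_max_right t₁ (1 / c)) hc0.le
    rwa [mul_one_div_cancel hc0.ne'] at this
  have h7 : 1 * V 1 b t ^ 2 ≤ c * t * V 1 b t ^ 2 := by gcongr
  linarith

/-- Claim K -/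
lemma up_of_not_dn {a b t₁ : ℝ} (ht₁ : 0 < t₁) (ha : Hyp a t₁) (hb : Hyp b t₁)
    (h1 : V 1 a t₁ < V 1 b t₁)
    (h2 : 0.85 * (V 1 b t₁ - V 1 a t₁) < P 1 b t₁ - P 1 a t₁)
    (h3 : P 1 b t₁ - P 1 a t₁ < 1.1 * (V 1 b t₁ - V 1 a t₁))
    (hd : ¬ Dn a t₁) : Up b t₁ := by
  have hPa : ¬ P 1 a t₁ < 0 := fun h => hd (Or.inl h)
  have hPb : ¬ P 1 b t₁ < 0 := by
    push Not at hPa ⊢; linarith
  rcases hb.trichotomy ht₁ with kb | kb | kb
  · -- `b` stays for ever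
    rcases ha.trichotomy ht₁ with ka | ka | ka
    · exact (not_both ht₁ ha hb h1 h2 h3 ka kb).elim
    · exact (hd ka).elim
    · obtain ⟨τ, k1, k2, k3⟩ := ka
      obtain ⟨q1, q2, q3⟩ := pair ht₁ ha hb h1 h2 h3 k2 (fun s hs => kb s hs.1) τ
        (right_mem_Icc.2 k1)
      have := (kb τ k1).2.2
      linarith
  · rcases kb with kb | ⟨σ, j1, j2, j3⟩
    · exact (hPb kb).elim
    rcases ha.trichotomy ht₁ with ka | ka | ka
    · obtain ⟨q1, q2, q3⟩ := pair ht₁ ha hb h1 h2 h3 (fun s hs => ka s hs.1) j2 σ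
        (right_mem_Icc.2 j1)
      have := (ka σ j1).2.1
      linarith
    · exact (hd ka).elim
    · obtain ⟨τ, k1, k2, k3⟩ := ka
      rcases le_or_gt τ σ with h4 | h4
      · obtain ⟨q1, q2, q3⟩ := pair ht₁ ha hb h1 h2 h3 k2 (fun s hs => j2 s ⟨hs.1, hs.2.trans h4⟩)
          τ (right_mem_Icc.2 k1)
        have := (j2 τ ⟨k1, h4⟩).2.2
        linarith
      · obtain ⟨q1, q2, q3⟩ := pair ht₁ ha hb h1 h2 h3 (fun s hs => k2 s ⟨hs.1, hs.2.trans h4.le⟩)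
          j2 σ (right_mem_Icc.2 j1)
        have := (k2 σ ⟨j1, h4.le⟩).2.1
        linarith
  · exact kb

/-- `P > 0.05 V` persists in the corridor -/
lemma low_inv {b t₁ t : ℝ} (ht₁ : 0 < t₁) (hb : Hyp b t₁) (h : 0.05 * V 1 b t₁ < P 1 b t₁)
    (hg : ∀ s ∈ Icc t₁ t, Good b s) : ∀ s ∈ Icc t₁ t, 0.05 * V 1 b s < P 1 b s := by
  apply cont_ind
  · intro s hs hprev
    have hsub : ∀ r ∈ Icc t₁ s, r ∈ Icc t₁ t := fun r hr => ⟨hr.1, hr.2.trans hs.2⟩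
    have m1 : MonotoneOn (fun r => r * (P 1 b r - 0.05 * V 1 b r)) (Icc t₁ s) := by
      apply monoOn_of (f' := fun r => 0.95 * P 1 b r - w b r * V 1 b r)
      · intro r hr
        have hr0 := ht₁.trans_le hr.1
        have e := (hasDerivAt_id' r).fun_mul ((hasDerivAt_P one_mem b hr0).fun_sub
          ((hasDerivAt_V' (a := b) hr0).const_mul 0.05))
        refine e.congr_deriv ?_
        have hF : F 1 (V 1 b r) = V 1 b r * (V 1 b r ^ 3 + V 1 b r ^ 6) := by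
          rw [F_of_mem ⟨by linarith [(hg r (hsub r hr)).1], by linarith [hb.V_le ht₁ hr.1]⟩]
          unfold f; ring
        rw [hF]
        unfold w
        field_simp
        ring
      · intro r hr
        have hp := hprev r ⟨hr.1.le, hr.2⟩
        have hr' := hsub r (Ioo_subset_Icc_self hr)
        have hw := (hb.w_le ht₁ hg hr').trans hb.hw
        have hv := (hg r hr').1
        have : w b r * V 1 b r ≤ 0.029 * V 1 b r := by gcongr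
        linarith
    have q := m1 (left_mem_Icc.2 hs.1) (right_mem_Icc.2 hs.1) hs.1
    simp only at q
    have p1 : 0 < s * (P 1 b s - 0.05 * V 1 b s) := lt_of_lt_of_le (mul_pos ht₁ (by linarith)) q
    have p2 := (pos_iff_pos_of_mul_pos p1).1 (ht₁.trans_le hs.1)
    linarith
  · intro s hs hp
    have hs0 := ht₁.trans_le hs.1
    obtain ⟨δ, hδ, k⟩ := open_of_cont (f := fun t => P 1 b t - 0.05 * V 1 b t) (s := s)
      ((cont_P hs0).sub (contV.const_mul 0.05)) (by linarith)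
    exact ⟨δ, hδ, fun r _ hr hr' => by linarith [k r hr hr']⟩

/-- the right end leaves above -/
lemma right_up {b t₁ : ℝ} (ht₁ : 0 < t₁) (hb : Hyp b t₁) (h : 0.05 * V 1 b t₁ < P 1 b t₁) :
    Up b t₁ := by
  have hV0 := hb.hV
  rcases hb.trichotomy ht₁ with kb | (kb | ⟨σ, j1, j2, j3⟩) | kb
  · exfalso
    have hlow : ∀ s, t₁ ≤ s → 0.05 * V 1 b s < P 1 b s := fun s hs =>
      low_inv ht₁ hb h (t := s) (fun r hr => kb r hr.1) s (right_mem_Icc.2 hs)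
    have m1 : ∀ t, MonotoneOn (fun r => P 1 b r / V 1 b r - 0.0185 * Real.log r) (Icc t₁ t) := by
      intro t
      apply monoOn_of (f' := fun r => ((P 1 b r * V 1 b r - P 1 b r ^ 2 - w b r * V 1 b r ^ 2) /
        V 1 b r ^ 2 - 0.0185) / r)
      · intro r hr
        have hr0 := ht₁.trans_le hr.1
        have hv := (kb r hr.1).1
        have e := ((hasDerivAt_P one_mem b hr0).fun_div (hasDerivAt_V' (a := b) hr0)
          hv.ne').fun_sub ((Real.hasDerivAt_log hr0.ne').const_mul 0.0185)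
        refine e.congr_deriv ?_
        have hF : F 1 (V 1 b r) = V 1 b r * (V 1 b r ^ 3 + V 1 b r ^ 6) := by
          rw [F_of_mem ⟨by linarith [(kb r hr.1).1], by linarith [hb.V_le ht₁ hr.1]⟩]
          unfold f; ring
        rw [hF]
        unfold w
        field_simp
        ring
      · intro r hr
        have hr0 := ht₁.trans hr.1
        obtain ⟨g1, g2, g3⟩ := kb r hr.1.le
        have hl := hlow r hr.1.le
        have hw : w b r ≤ 0.029 := (hb.w_le ht₁ (t := r) (fun q hq => kb q hq.1)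
          (right_mem_Icc.2 hr.1.le)).trans hb.hw
        apply div_nonneg _ hr0.le
        rw [sub_nonneg, le_div_iff₀ (by positivity)]
        have a1 : w b r * V 1 b r ^ 2 ≤ 0.029 * V 1 b r ^ 2 := by gcongr
        have a2 : 0 ≤ (P 1 b r - 0.05 * V 1 b r) * (V 1 b r - 3 * P 1 b r) :=
          mul_nonneg (by linarith) (by linarith)
        have a3 : 0 ≤ (P 1 b r - 0.05 * V 1 b r) * V 1 b r := mul_nonneg (by linarith) g1.le
        nlinarith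
    set K := 1 / 3 + 0.0185 * Real.log t₁ with hK
    obtain ⟨t, ht⟩ : ∃ t, t₁ ≤ t ∧ K < 0.0185 * Real.log t := by
      refine ⟨max t₁ (Real.exp ((K + 1) / 0.0185)), le_max_left _ _, ?_⟩
      have h1 : Real.log (Real.exp ((K + 1) / 0.0185)) ≤
          Real.log (max t₁ (Real.exp ((K + 1) / 0.0185))) :=
        Real.log_le_log (Real.exp_pos _) (le_max_right _ _)
      rw [Real.log_exp] at h1
      have h2 : 0.0185 * ((K + 1) / 0.0185) = K + 1 := by field_simp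
      linarith
    have q := m1 t (left_mem_Icc.2 ht.1) (right_mem_Icc.2 ht.1) ht.1
    simp only at q
    obtain ⟨g1, g2, g3⟩ := kb t ht.1
    have h4 : P 1 b t / V 1 b t ≤ 1 / 3 := by
      rw [div_le_iff₀ g1]; linarith
    have h5 : 0 < P 1 b t₁ / V 1 b t₁ := by
      apply div_pos _ hV0
      linarith
    linarith [ht.2]
  · exfalso; linarith
  · exfalso
    have := low_inv ht₁ hb h j2 σ (right_mem_Icc.2 j1)
    have h6 := (j2 σ (right_mem_Icc.2 j1)).1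
    linarith
  · exact kb

end LinNi.H54
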