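import Pool.Agent.Lib.MP_0170ef_an_h54.Local

/-!
`LocR` from data at a time where `z = t v` is nonincreasing.
-/

set_option autoImplicit false

open Set Filter Topology

namespace LinNi.H54

open LinNi

/-- continuous induction on an interval -/
lemma cont_ind {a b : ℝ} {p : ℝ → Prop}
    (hstep : ∀ s ∈ Icc a b, (∀ r ∈ Ico a s, p r) → p s)
    (hopen : ∀ s ∈ Icc a b, p s → ∃ δ > 0, ∀ r ∈ Icc a b, s ≤ r → r < s + δ → p r) :
    ∀ s ∈ Icc a b, p s := by
  intro s hs
  by_contra hcon
  let S : Set ℝ := {t | t ∈ Icc a b ∧ ∀ r ∈ Icc a t, p r}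
  have hab : a ≤ b := hs.1.trans hs.2
  have ha : a ∈ Icc a b := left_mem_Icc.2 hab
  have hpa : p a := hstep a ha (fun r hr => absurd hr.2 (not_lt.2 hr.1))
  have haS : a ∈ S := ⟨ha, fun r hr => by
    have : r = a := le_antisymm hr.2 hr.1
    rw [this]; exact hpa⟩
  have hbdd : BddAbove S := ⟨b, fun t ht => ht.1.2⟩
  set τ := sSup S with hτ
  have haτ : a ≤ τ := le_csSup hbdd haS
  have hτb : τ ≤ b := csSup_le ⟨a, haS⟩ (fun t ht => ht.1.2)
  have hτm : τ ∈ Icc a b := ⟨haτ, hτb⟩
  have hbelow : ∀ r ∈ Ico a τ, p r := by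
    intro r hr
    obtain ⟨t, htS, hrt⟩ := exists_lt_of_lt_csSup ⟨a, haS⟩ hr.2
    exact htS.2 r ⟨hr.1, hrt.le⟩
  have hpτ : p τ := hstep τ hτm hbelow
  obtain ⟨δ, hδ, h1⟩ := hopen τ hτm hpτ
  set t' := min b (τ + δ / 2) with ht'
  have hτt' : τ ≤ t' := le_min hτb (by linarith)
  have ht'b : t' ≤ b := min_le_left _ _
  have ht'S : t' ∈ S := by
    refine ⟨⟨haτ.trans hτt', ht'b⟩, fun r hr => ?_⟩
    rcases lt_or_ge r τ with h2 | h2
    · exact hbelow r ⟨hr.1, h2⟩
    · apply h1 r ⟨hr.1, hr.2.trans ht'b⟩ h2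
      have : r ≤ τ + δ / 2 := hr.2.trans (min_le_right _ _)
      linarith
  have h3 : t' ≤ τ := le_csSup hbdd ht'S
  have h4 : t' = τ := le_antisymm h3 hτt'
  have h5 : b = τ := by
    rcases min_choice b (τ + δ / 2) with h6 | h6
    · rw [← h6]; exact h4
    · rw [ht', h6] at h4; linarith
  apply hcon
  rw [h4, ← h5] at ht'S
  exact ht'S.2 s hs

/-- continuity gives the openness hypothesis -/
lemma open_of_cont {f : ℝ → ℝ} {s : ℝ} (hf : ContinuousAt f s) (h : 0 < f s) :
    ∃ δ > 0, ∀ r, s ≤ r → r < s + δ → 0 < f r := by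
  obtain ⟨δ, hδ, h1⟩ := Metric.eventually_nhds_iff.1 (hf.eventually (lt_mem_nhds h))
  refine ⟨δ, hδ, fun r hr hr' => h1 ?_⟩
  rw [Real.dist_eq, abs_lt]
  constructor <;> linarith

lemma monoOn_of {f f' : ℝ → ℝ} {a b : ℝ} (h : ∀ t ∈ Icc a b, HasDerivAt f (f' t) t)
    (h' : ∀ t ∈ Ioo a b, 0 ≤ f' t) : MonotoneOn f (Icc a b) := by
  apply monotoneOn_of_deriv_nonneg (convex_Icc _ _)
  · intro t ht; exact (h t ht).continuousAt.continuousWithinAt
  · intro t ht
    rw [interior_Icc] at ht
    exact (h t (Ioo_subset_Icc_self ht)).differentiableAt.differentiableWithinAt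
  · intro t ht
    rw [interior_Icc] at ht
    rw [(h t (Ioo_subset_Icc_self ht)).deriv]
    exact h' t ht

lemma antiOn_of {f f' : ℝ → ℝ} {a b : ℝ} (h : ∀ t ∈ Icc a b, HasDerivAt f (f' t) t)
    (h' : ∀ t ∈ Ioo a b, f' t ≤ 0) : AntitoneOn f (Icc a b) := by
  apply antitoneOn_of_deriv_nonpos (convex_Icc _ _)
  · intro t ht; exact (h t ht).continuousAt.continuousWithinAt
  · intro t ht
    rw [interior_Icc] at ht
    exact (h t (Ioo_subset_Icc_self ht)).differentiableAt.differentiableWithinAt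
  · intro t ht
    rw [interior_Icc] at ht
    rw [(h t (Ioo_subset_Icc_self ht)).deriv]
    exact h' t ht

/-- `z' = v + m / t` -/
noncomputable def P (c a t : ℝ) : ℝ := V c a t + M c a t / t

lemma hasDerivAt_Z {c : ℝ} (hc : c ∈ Icc (0:ℝ) 1) (a : ℝ) {t : ℝ} (ht : 0 < t) :
    HasDerivAt (fun t => t * V c a t) (P c a t) t := by
  refine ((hasDerivAt_id' t).fun_mul (solAt_VM hc a ht.ne').1).congr_deriv ?_
  unfold P
  field_simp

lemma hasDerivAt_P {c : ℝ} (hc : c ∈ Icc (0:ℝ) 1) (a : ℝ) {t : ℝ} (ht : 0 < t) :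
    HasDerivAt (P c a) (-(t * F c (V c a t))) t := by
  have h := solAt_VM hc a ht.ne'
  refine (h.1.fun_add (h.2.fun_div (hasDerivAt_id' t) ht.ne')).congr_deriv ?_
  field_simp
  ring

lemma P_antitoneOn {c : ℝ} (hc : c ∈ Icc (0:ℝ) 1) (a : ℝ) {s t : ℝ} (hs : 0 < s) :
    AntitoneOn (P c a) (Icc s t) := by
  apply antiOn_of (fun r hr => hasDerivAt_P hc a (hs.trans_le hr.1))
  intro r hr
  have h1 := F_nonneg hc (V c a r)
  have h2 : 0 < r := hs.trans hr.1
  have : 0 ≤ r * F c (V c a r) := by positivity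
  linarith

section lin
variable {c : ℝ} {v : ℝ → ℝ} {a b τ : ℝ} {G u μ : ℝ → ℝ}

lemma linI_xi (h : LinI c v a b τ G u μ) (ha : 0 < a) {t : ℝ} (ht : t ∈ Icc a b) :
    HasDerivAt (fun t => t * u t) (u t + μ t / t) t := by
  have ht0 : 0 < t := ha.trans_le ht.1
  refine ((hasDerivAt_id' t).fun_mul (h.du t ht)).congr_deriv ?_
  field_simp

lemma linI_xi' (h : LinI c v a b τ G u μ) (ha : 0 < a) {t : ℝ} (ht : t ∈ Icc a b) :
    HasDerivAt (fun t => u t + μ t / t) (-(t * (G t * u t))) t := by
  have ht0 : 0 < t := ha.trans_le ht.1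
  refine ((h.du t ht).fun_add ((h.dμ t ht).fun_div (hasDerivAt_id' t) ht0.ne')).congr_deriv ?_
  field_simp
  ring

end lin

/-- the solution crosses if `z' ≤ 0` at some time -/
lemma crosses_of_P {a t₁ : ℝ} (ha : 0 < a) (ht₁ : 0 < t₁)
    (hP : P 1 a t₁ ≤ 0) : Crosses a := by
  by_contra hcr
  have hpos : ∀ t, 0 < t → 0 < V 1 a t := by
    intro t ht
    by_contra h
    push Not at h
    apply hcr
    have h6 : (0:ℝ) ∈ V 1 a '' Icc 0 t := by
      apply intermediate_value_Icc' ht.le (V_cont one_mem a).continuousOn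
      rw [V_zero one_mem]
      exact ⟨h, ha.le⟩
    obtain ⟨s, hs, hvs⟩ := h6
    rcases eq_or_lt_of_le hs.1 with h7 | h7
    · rw [← h7, V_zero one_mem] at hvs
      linarith
    · exact ⟨s, h7, hvs⟩
  -- strictly negative slope a bit later
  have hneg : P 1 a (t₁ + 1) < 0 := by
    have h1 : StrictAntiOn (P 1 a) (Icc t₁ (t₁ + 1)) := by
      apply strictAntiOn_of_deriv_neg (convex_Icc _ _)
      · intro t ht
        exact (hasDerivAt_P one_mem a (ht₁.trans_le ht.1)).continuousAt.continuousWithinAt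
      · intro t ht
        rw [interior_Icc] at ht
        have ht0 := ht₁.trans ht.1
        rw [(hasDerivAt_P one_mem a ht0).deriv]
        have := F_pos one_mem (hpos t ht0)
        have : 0 < t * F 1 (V 1 a t) := by positivity
        linarith
    have := h1 (left_mem_Icc.2 (by linarith)) (right_mem_Icc.2 (by linarith))
      (show t₁ < t₁ + 1 by linarith)
    linarith
  set κ := -P 1 a (t₁ + 1) with hκ
  have hκ0 : 0 < κ := by linarith
  set z₀ := (t₁ + 1) * V 1 a (t₁ + 1) with hz₀
  have hz₀0 : 0 < z₀ := by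
    have := hpos (t₁ + 1) (by linarith)
    positivity
  set t := t₁ + 1 + z₀ / κ with ht
  have hle : t₁ + 1 ≤ t := by
    have : 0 < z₀ / κ := by positivity
    linarith
  have h2 : AntitoneOn (fun s => s * V 1 a s + κ * s) (Icc (t₁ + 1) t) := by
    apply antiOn_of (f' := fun s => P 1 a s + κ)
    · intro s hs
      have := (hasDerivAt_Z one_mem a (by linarith [hs.1] : 0 < s)).fun_add
        ((hasDerivAt_id' s).const_mul κ)
      exact this.congr_deriv (by ring)
    · intro s hs
      have := P_antitoneOn one_mem a (s := t₁ + 1) (t := t) (by linarith)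
        (left_mem_Icc.2 hle) (Ioo_subset_Icc_self hs) hs.1.le
      linarith
  have h3 := h2 (left_mem_Icc.2 hle) (right_mem_Icc.2 hle) hle
  simp only at h3
  have h4 : κ * t = κ * (t₁ + 1) + z₀ := by
    rw [ht, mul_add]
    congr 1
    field_simp
  have h5 := hpos t (by linarith)
  have h6 : 0 < t * V 1 a t := mul_pos (by linarith) h5
  linarith

theorem locR_of_data {a t₁ τ : ℝ} (ha : 0 < a) (ha2 : a < 2) (ht₁ : 0 < t₁) (hτ : 0 < τ)
    (hV : 0 < V 1 a t₁) (hP : P 1 a t₁ ≤ 0)
    (hW : t₁ ^ 2 * (V 1 a t₁ ^ 3 + 2 * V 1 a t₁ ^ 6) ≤ 1 / 5)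
    (h : ∀ G u μ, Lin 1 (V 1 a) t₁ τ G u μ → 0 < u t₁ ∧
      4.3 * (t₁ ^ 2 * (V 1 a t₁ ^ 3 + 2 * V 1 a t₁ ^ 6)) * u t₁ < u t₁ + μ t₁ / t₁) :
    LocR a := by
  have hcr := crosses_of_P ha ht₁ hP
  set T₀ := T a with hT₀
  have hT₁ : t₁ < T₀ := (lt_T_iff ha hcr ht₁.le).2 hV
  set v₁ := V 1 a t₁ with hv₁
  set W := t₁ ^ 2 * (v₁ ^ 3 + 2 * v₁ ^ 6) with hWdef
  have hW0 : 0 < W := by positivity
  -- choose `N`
  obtain ⟨δN, hδN, hN1⟩ := open_of_cont (f := fun t => V 1 a t + 1 / 2) (s := T₀)
    (by have := (V_cont one_mem a).continuousAt (x := T₀)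
        exact this.add continuousAt_const) (by
      have := V_T hcr
      rw [← hT₀] at this
      simp only [this]; norm_num)
  set N := T₀ + δN / 2 with hN
  have hTN : T₀ < N := by linarith
  have hVN : -1/2 < V 1 a N := by
    have := hN1 N hTN.le (by linarith)
    linarith
  -- choose the tolerance
  set D := T₀ - t₁ with hD
  have hD0 : 0 < D := by linarith
  set Q := D * (t₁ / (4.3 * W) + 1.09 * D) with hQ
  have hQ0 : 0 < Q := by positivity
  set τ' := min τ (0.08 / Q) with hτ'
  have hτ'0 : 0 < τ' := lt_min hτ (by positivity)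
  have hτ'Q : τ' * Q ≤ 0.08 := by
    have := min_le_right τ (0.08 / Q)
    rw [← hτ'] at this
    rwa [le_div_iff₀ hQ0] at this
  refine loc_R (N := N) (τ := τ') ha ha2 hτ'0 hcr hTN hVN ?_
  intro G u μ hL
  obtain ⟨hu₁, hξ₁⟩ := h G u μ (Lin_tol (hL.mono (hT₁.trans hTN).le) (min_le_left _ _))
  set u₁ := u t₁ with hu₁def
  set p := u₁ + μ t₁ / t₁ with hp
  have hI : LinI 1 (V 1 a) t₁ T₀ τ' G u μ := (hL.mono hTN.le).linI ht₁
  have hp0 : 0 < p := by
    have : 0 < 4.3 * W * u₁ := by positivity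
    linarith
  have hu₁p : u₁ ≤ p / (4.3 * W) := by
    rw [le_div_iff₀ (by positivity)]; linarith
  set K := 1.09 * p with hK
  set LT := t₁ * u₁ + K * D with hLT
  have hLT0 : 0 < LT := by positivity
  have hτLT : τ' * LT * D ≤ 0.08 * p := by
    have h1 : LT ≤ p * (t₁ / (4.3 * W) + 1.09 * D) := by
      have : t₁ * u₁ ≤ t₁ * (p / (4.3 * W)) := by gcongr
      rw [hLT, hK]
      have e : t₁ * (p / (4.3 * W)) = p * (t₁ / (4.3 * W)) := by ring
      linarith
    calc τ' * LT * D ≤ τ' * (p * (t₁ / (4.3 * W) + 1.09 * D)) * D := by gcongr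
      _ = (τ' * Q) * p := by rw [hQ]; ring
      _ ≤ 0.08 * p := by gcongr
  -- the solution is below `t₁ v₁ / t`
  have hz : ∀ t ∈ Icc t₁ T₀, 0 ≤ V 1 a t ∧ t * V 1 a t ≤ t₁ * v₁ := by
    intro t ht
    refine ⟨?_, ?_⟩
    · rcases eq_or_lt_of_le ht.2 with h1 | h1
      · rw [h1]
        have := V_T hcr
        rw [← hT₀] at this
        rw [this]
      · exact ((lt_T_iff ha hcr (ht₁.le.trans ht.1)).1 h1).le
    · have h1 : AntitoneOn (fun t => t * V 1 a t) (Icc t₁ T₀) := by
        apply antiOn_of (fun s hs => hasDerivAt_Z one_mem a (ht₁.trans_le hs.1))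
        intro s hs
        have := P_antitoneOn one_mem a (s := t₁) (t := T₀) ht₁ (left_mem_Icc.2 hT₁.le)
          (Ioo_subset_Icc_self hs) hs.1.le
        linarith
      exact h1 (left_mem_Icc.2 hT₁.le) ht ht.1
  set A := 4 * (t₁ * v₁) ^ 3 with hA
  set B := 7 * (t₁ * v₁) ^ 6 with hB
  have hA0 : 0 < A := by positivity
  have hB0 : 0 < B := by positivity
  have hG : ∀ t ∈ Icc t₁ T₀, -τ' ≤ G t ∧ G t ≤ A / t ^ 3 + B / t ^ 6 + τ' := by
    intro t ht
    have ht0 := ht₁.trans_le ht.1
    obtain ⟨h1, h2⟩ := hz t ht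
    have h3 := abs_le.1 (hI.hG t ht)
    have h4 : V 1 a t ≤ t₁ * v₁ / t := by rw [le_div_iff₀ ht0]; linarith
    have h5 : fp 1 (V 1 a t) ≤ A / t ^ 3 + B / t ^ 6 := by
      have e : A / t ^ 3 + B / t ^ 6 = 4 * (t₁ * v₁ / t) ^ 3 + 7 * 1 * (t₁ * v₁ / t) ^ 6 := by
        rw [hA, hB, div_pow, div_pow]; ring
      rw [e]
      unfold fp
      gcongr
    have h6 : 0 ≤ fp 1 (V 1 a t) := by unfold fp; positivity
    constructor <;> linarith [h3.1, h3.2]
  -- continuous induction
  have key : ∀ s ∈ Icc t₁ T₀, 0 < u s + μ s / s ∧ 0 < K - (u s + μ s / s) := by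
    apply cont_ind
    · intro s hs hbelow
      -- bounds for `ξ` on `[t₁, s]`
      have hxi : ∀ r ∈ Icc t₁ s, t₁ * u₁ ≤ r * u r ∧ r * u r ≤ t₁ * u₁ + K * (r - t₁) := by
        intro r hr
        have hd : ∀ q ∈ Icc t₁ r, HasDerivAt (fun t => t * u t) (u q + μ q / q) q :=
          fun q hq => linI_xi hI ht₁ ⟨hq.1, (hq.2.trans hr.2).trans hs.2⟩
        constructor
        · have := monoOn_of hd (fun q hq => (hbelow q ⟨hq.1.le, hq.2.trans_le hr.2⟩).1.le)
          exact this (left_mem_Icc.2 hr.1) (right_mem_Icc.2 hr.1) hr.1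
        · have hd2 : ∀ q ∈ Icc t₁ r, HasDerivAt (fun t => t * u t - K * t)
              (u q + μ q / q - K) q := fun q hq =>
            ((hd q hq).fun_sub ((hasDerivAt_id' q).const_mul K)).congr_deriv (by ring)
          have := antiOn_of hd2 (fun q hq => by
            have := (hbelow q ⟨hq.1.le, hq.2.trans_le hr.2⟩).2; linarith)
          have := this (left_mem_Icc.2 hr.1) (right_mem_Icc.2 hr.1) hr.1
          simp only at this
          linarith
      have hxi0 : ∀ r ∈ Icc t₁ s, 0 ≤ r * u r ∧ r * u r ≤ LT := by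
        intro r hr
        obtain ⟨h1, h2⟩ := hxi r hr
        refine ⟨le_trans (by positivity) h1, h2.trans ?_⟩
        have : r - t₁ ≤ D := by linarith [hr.2, hs.2]
        have : K * (r - t₁) ≤ K * D := by gcongr
        linarith
      have hd' : ∀ q ∈ Icc t₁ s, HasDerivAt (fun t => u t + μ t / t) (-(q * (G q * u q))) q :=
        fun q hq => linI_xi' hI ht₁ ⟨hq.1, hq.2.trans hs.2⟩
      have hsD : s - t₁ ≤ D := by linarith [hs.2]
      have hs0 : 0 ≤ s - t₁ := by linarith [hs.1]
      have hτs : τ' * LT * (s - t₁) ≤ 0.08 * p := by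
        refine le_trans ?_ hτLT
        gcongr
      constructor
      · -- lower bound
        set c₀ := t₁ * u₁ - K * t₁ with hc₀
        have hH : MonotoneOn (fun t => (u t + μ t / t) + (-(A * c₀ / (2 * t ^ 2)) - A * K / t
            - B * c₀ / (5 * t ^ 5) - B * K / (4 * t ^ 4)) + τ' * LT * t) (Icc t₁ s) := by
          have hdd : ∀ q ∈ Icc t₁ s, HasDerivAt (fun t => (u t + μ t / t) +
              (-(A * c₀ / (2 * t ^ 2)) - A * K / t - B * c₀ / (5 * t ^ 5)
                - B * K / (4 * t ^ 4)) + τ' * LT * t)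
              (-(q * (G q * u q)) + (A / q ^ 3 + B / q ^ 6) * (c₀ + K * q) + τ' * LT) q := by
            intro q hq
            have hq0 : 0 < q := ht₁.trans_le hq.1
            have e1 : HasDerivAt (fun t : ℝ => A * c₀ / (2 * t ^ 2)) (-(A * c₀ / q ^ 3)) q := by
              have := ((hasDerivAt_pow 2 q).const_mul 2).fun_inv (by positivity) |>.const_mul (A * c₀)
              refine (this.congr_deriv ?_).congr_of_eventuallyEq ?_
              · field_simp
                ring
              · filter_upwards with t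
                rw [div_eq_mul_inv]
            have e2 : HasDerivAt (fun t : ℝ => A * K / t) (-(A * K / q ^ 2)) q := by
              have := (hasDerivAt_id' q).fun_inv hq0.ne' |>.const_mul (A * K)
              refine (this.congr_deriv ?_).congr_of_eventuallyEq ?_
              · field_simp
              · filter_upwards with t
                rw [div_eq_mul_inv]
            have e3 : HasDerivAt (fun t : ℝ => B * c₀ / (5 * t ^ 5)) (-(B * c₀ / q ^ 6)) q := by
              have := ((hasDerivAt_pow 5 q).const_mul 5).fun_inv (by positivity) |>.const_mul (B * c₀)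
              refine (this.congr_deriv ?_).congr_of_eventuallyEq ?_
              · field_simp
                ring
              · filter_upwards with t
                rw [div_eq_mul_inv]
            have e4 : HasDerivAt (fun t : ℝ => B * K / (4 * t ^ 4)) (-(B * K / q ^ 5)) q := by
              have := ((hasDerivAt_pow 4 q).const_mul 4).fun_inv (by positivity) |>.const_mul (B * K)
              refine (this.congr_deriv ?_).congr_of_eventuallyEq ?_
              · field_simp
                ring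
              · filter_upwards with t
                rw [div_eq_mul_inv]
            have e5 := (hasDerivAt_id' q).const_mul (τ' * LT)
            have := ((hd' q hq).fun_add (((e1.fun_neg.fun_sub e2).fun_sub e3).fun_sub e4)).fun_add e5
            refine this.congr_deriv ?_
            field_simp
            ring
          apply monoOn_of hdd
          intro q hq
          have hq' : q ∈ Icc t₁ s := Ioo_subset_Icc_self hq
          have hq0 : 0 < q := ht₁.trans_le hq'.1
          obtain ⟨h1, h2⟩ := hxi q hq'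
          obtain ⟨h3, h4⟩ := hxi0 q hq'
          obtain ⟨h5, h6⟩ := hG q ⟨hq'.1, hq'.2.trans hs.2⟩
          have h7 : q * (G q * u q) = G q * (q * u q) := by ring
          rw [h7]
          have h8 : G q * (q * u q) ≤ (A / q ^ 3 + B / q ^ 6 + τ') * (q * u q) := by gcongr
          have h9 : (A / q ^ 3 + B / q ^ 6) * (q * u q) ≤ (A / q ^ 3 + B / q ^ 6) *
              (c₀ + K * q) := by
            have : q * u q ≤ c₀ + K * q := by rw [hc₀]; linarith
            gcongr
          have h10 : τ' * (q * u q) ≤ τ' * LT := by gcongr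
          linarith
        have hend := hH (left_mem_Icc.2 hs.1) (right_mem_Icc.2 hs.1) hs.1
        simp only at hend
        have hs0' : 0 < s := ht₁.trans_le hs.1
        have hLs : 0 ≤ c₀ + K * s := by
          have := (hxi s ⟨hs.1, le_rfl⟩).2
          have := (hxi0 s ⟨hs.1, le_rfl⟩).1
          rw [hc₀]; linarith
        have hKs : 0 ≤ K * s := by positivity
        have g1 : 0 ≤ A * c₀ / (2 * s ^ 2) + A * K / s := by
          have e : A * c₀ / (2 * s ^ 2) + A * K / s = A * (c₀ + K * s + K * s) / (2 * s ^ 2) := by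
            field_simp; ring
          rw [e]; positivity
        have g2 : 0 ≤ B * c₀ / (5 * s ^ 5) + B * K / (4 * s ^ 4) := by
          have e : B * c₀ / (5 * s ^ 5) + B * K / (4 * s ^ 4) =
              B * (4 * (c₀ + K * s) + K * s) / (20 * s ^ 5) := by
            field_simp; ring
          rw [e]; positivity
        have g3 : A * c₀ / (2 * t₁ ^ 2) + A * K / t₁ = 2 * (t₁ ^ 2 * v₁ ^ 3) * (u₁ + K) := by
          rw [hA, hc₀]; field_simp; ring
        have g4 : B * c₀ / (5 * t₁ ^ 5) + B * K / (4 * t₁ ^ 4) =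
            (t₁ ^ 2 * v₁ ^ 6) * (1.4 * u₁ + 0.35 * K) := by
          rw [hB, hc₀]; field_simp; ring
        have hK0 : 0 < K := by positivity
        have g5 : 2 * (t₁ ^ 2 * v₁ ^ 3) * (u₁ + K) + (t₁ ^ 2 * v₁ ^ 6) * (1.4 * u₁ + 0.35 * K)
            ≤ 2 * W * (u₁ + K) := by
          have q1 : 0 ≤ t₁ ^ 2 * v₁ ^ 6 := by positivity
          have q2 : (t₁ ^ 2 * v₁ ^ 6) * (1.4 * u₁ + 0.35 * K) ≤
              (t₁ ^ 2 * v₁ ^ 6) * (4 * (u₁ + K)) := by
            apply mul_le_mul_of_nonneg_left _ q1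
            linarith
          rw [hWdef]
          linarith
        -- final arithmetic
        have g6 : 2 * W * u₁ < 2 / 4.3 * p := by
          have : 4.3 * W * u₁ < p := hξ₁
          linarith
        have g7 : 2 * W * K ≤ 2 / 5 * K := by
          have : W * K ≤ 1 / 5 * K := by gcongr
          linarith
        have e1 : τ' * LT * s - τ' * LT * t₁ = τ' * LT * (s - t₁) := by ring
        have e2 : (u s + μ s / s) ≥ p - (2 * W * (u₁ + K)) - 0.08 * p := by
          have : p = u t₁ + μ t₁ / t₁ := rfl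
          linarith
        rw [hK] at g7
        have e3 : 2 * W * (u₁ + K) = 2 * W * u₁ + 2 * W * (1.09 * p) := by rw [hK]; ring
        rw [e3] at e2
        norm_num at g6 g7 e2 ⊢
        linarith
      · -- upper bound
        have hH : AntitoneOn (fun t => (u t + μ t / t) - τ' * LT * t) (Icc t₁ s) := by
          have hdd : ∀ q ∈ Icc t₁ s, HasDerivAt (fun t => (u t + μ t / t) - τ' * LT * t)
              (-(q * (G q * u q)) - τ' * LT) q := by
            intro q hq
            exact ((hd' q hq).fun_sub ((hasDerivAt_id' q).const_mul (τ' * LT))).congr_deriv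
              (by ring)
          apply antiOn_of hdd
          intro q hq
          have hq' : q ∈ Icc t₁ s := Ioo_subset_Icc_self hq
          obtain ⟨h3, h4⟩ := hxi0 q hq'
          obtain ⟨h5, h6⟩ := hG q ⟨hq'.1, hq'.2.trans hs.2⟩
          have h7 : q * (G q * u q) = G q * (q * u q) := by ring
          rw [h7]
          have h8 : -τ' * (q * u q) ≤ G q * (q * u q) := by gcongr
          have h10 : τ' * (q * u q) ≤ τ' * LT := by gcongr
          linarith
        have hend := hH (left_mem_Icc.2 hs.1) (right_mem_Icc.2 hs.1) hs.1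
        simp only at hend
        have e1 : τ' * LT * s - τ' * LT * t₁ = τ' * LT * (s - t₁) := by ring
        have e3 : p = u t₁ + μ t₁ / t₁ := rfl
        rw [hK]
        linarith
    · intro s hs hps
      have hcont := (linI_xi' hI ht₁ hs).continuousAt
      obtain ⟨δ₁, hδ₁, h1⟩ := open_of_cont hcont hps.1
      obtain ⟨δ₂, hδ₂, h2⟩ := open_of_cont (f := fun t => K - (u t + μ t / t))
        (continuousAt_const.sub hcont) hps.2
      refine ⟨min δ₁ δ₂, lt_min hδ₁ hδ₂, fun r _ hr hr' => ⟨h1 r hr ?_, h2 r hr ?_⟩⟩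
      · exact hr'.trans_le (by linarith [min_le_left δ₁ δ₂])
      · exact hr'.trans_le (by linarith [min_le_right δ₁ δ₂])
  -- conclusion
  have hfin : t₁ * u₁ ≤ T₀ * u T₀ := by
    have := monoOn_of (fun q hq => linI_xi hI ht₁ hq)
      (fun q hq => (key q (Ioo_subset_Icc_self hq)).1.le)
    exact this (left_mem_Icc.2 hT₁.le) (right_mem_Icc.2 hT₁.le) hT₁.le
  have hpos : 0 < T₀ * u T₀ := lt_of_lt_of_le (by positivity) hfin
  exact (pos_iff_pos_of_mul_pos hpos).1 (ht₁.trans hT₁)

end LinNi.H54
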