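import Pool.Agent.Lib.MP_0170ef_an.Lin

/-!
Difference quotients of the radial solutions in the initial value solve nearly linearised
equations; consequences for the first zero.
-/

set_option autoImplicit false

open Set Filter Topology

namespace LinNi.H54

open LinNi

lemma abs_ddd_le {c x y z : ℝ} (hc : c ∈ Icc (0:ℝ) 1) (hx : |x| ≤ 2) (hy : |y| ≤ 2)
    (hz : |z| ≤ 2) : |ddd c x y z| ≤ 700 := by
  have key : ∀ i j k : ℕ, |x ^ i * y ^ j * z ^ k| ≤ 2 ^ (i + j + k) := by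
    intro i j k
    calc |x ^ i * y ^ j * z ^ k| = |x| ^ i * |y| ^ j * |z| ^ k := by
          rw [abs_mul, abs_mul, abs_pow, abs_pow, abs_pow]
      _ ≤ 2 ^ i * 2 ^ j * 2 ^ k := by gcongr
      _ = 2 ^ (i + j + k) := by rw [pow_add, pow_add]
  have s1 : |x ^ 2 + y ^ 2 + z ^ 2 + x * y + y * z + z * x| ≤ 24 := by
    have a1 := abs_le.1 (key 2 0 0)
    have a2 := abs_le.1 (key 0 2 0)
    have a3 := abs_le.1 (key 0 0 2)
    have a4 := abs_le.1 (key 1 1 0)
    have a5 := abs_le.1 (key 0 1 1)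
    have a6 := abs_le.1 (key 1 0 1)
    norm_num at a1 a2 a3 a4 a5 a6
    rw [abs_le]
    constructor <;> linarith
  have s2 : |h5 x y z| ≤ 672 := by
    have b : ∀ i j k : ℕ, i + j + k = 5 → |x ^ i * y ^ j * z ^ k| ≤ 32 := by
      intro i j k h
      have := key i j k
      rw [h] at this
      norm_num at this ⊢
      exact this
    have b1 := abs_le.1 (b 5 0 0 rfl)
    have b2 := abs_le.1 (b 4 1 0 rfl)
    have b3 := abs_le.1 (b 3 2 0 rfl)
    have b4 := abs_le.1 (b 2 3 0 rfl)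
    have b5 := abs_le.1 (b 1 4 0 rfl)
    have b6 := abs_le.1 (b 0 5 0 rfl)
    have b7 := abs_le.1 (b 4 0 1 rfl)
    have b8 := abs_le.1 (b 3 1 1 rfl)
    have b9 := abs_le.1 (b 2 2 1 rfl)
    have b10 := abs_le.1 (b 1 3 1 rfl)
    have b11 := abs_le.1 (b 0 4 1 rfl)
    have b12 := abs_le.1 (b 3 0 2 rfl)
    have b13 := abs_le.1 (b 2 1 2 rfl)
    have b14 := abs_le.1 (b 1 2 2 rfl)
    have b15 := abs_le.1 (b 0 3 2 rfl)
    have b16 := abs_le.1 (b 2 0 3 rfl)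
    have b17 := abs_le.1 (b 1 1 3 rfl)
    have b18 := abs_le.1 (b 0 2 3 rfl)
    have b19 := abs_le.1 (b 1 0 4 rfl)
    have b20 := abs_le.1 (b 0 1 4 rfl)
    have b21 := abs_le.1 (b 0 0 5 rfl)
    have e : h5 x y z = (x ^ 5 * y ^ 0 * z ^ 0 + x ^ 4 * y ^ 1 * z ^ 0 + x ^ 3 * y ^ 2 * z ^ 0 +
      x ^ 2 * y ^ 3 * z ^ 0 + x ^ 1 * y ^ 4 * z ^ 0 + x ^ 0 * y ^ 5 * z ^ 0) +
      (x ^ 4 * y ^ 0 * z ^ 1 + x ^ 3 * y ^ 1 * z ^ 1 + x ^ 2 * y ^ 2 * z ^ 1 +
      x ^ 1 * y ^ 3 * z ^ 1 + x ^ 0 * y ^ 4 * z ^ 1) +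
      (x ^ 3 * y ^ 0 * z ^ 2 + x ^ 2 * y ^ 1 * z ^ 2 + x ^ 1 * y ^ 2 * z ^ 2 +
      x ^ 0 * y ^ 3 * z ^ 2) + (x ^ 2 * y ^ 0 * z ^ 3 + x ^ 1 * y ^ 1 * z ^ 3 +
      x ^ 0 * y ^ 2 * z ^ 3) + (x ^ 1 * y ^ 0 * z ^ 4 + x ^ 0 * y ^ 1 * z ^ 4) +
      x ^ 0 * y ^ 0 * z ^ 5 := by
      unfold h5; ring
    rw [e, abs_le]
    constructor <;> linarith
  unfold ddd
  calc |x ^ 2 + y ^ 2 + z ^ 2 + x * y + y * z + z * x + c * h5 x y z|
      ≤ |x ^ 2 + y ^ 2 + z ^ 2 + x * y + y * z + z * x| + |c * h5 x y z| := abs_add_le _ _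
    _ ≤ 24 + 1 * 672 := by
        rw [abs_mul, abs_of_nonneg hc.1]
        gcongr
        exact hc.2
    _ ≤ 700 := by norm_num

lemma abs_dd_sub_fp_le {c x y a : ℝ} (hc : c ∈ Icc (0:ℝ) 1) (hx : |x| ≤ 2) (hy : |y| ≤ 2)
    (ha : |a| ≤ 2) : |dd c x y - fp c a| ≤ 700 * (|x - a| + |y - a|) := by
  have e : dd c x y - fp c a = ddd c x a y * (x - a) + ddd c y a a * (y - a) := by
    rw [← dd_sub, ← dd_sub, ← dd_self, dd_comm c a y]; ring
  rw [e]
  calc |ddd c x a y * (x - a) + ddd c y a a * (y - a)|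
      ≤ |ddd c x a y * (x - a)| + |ddd c y a a * (y - a)| := abs_add_le _ _
    _ = |ddd c x a y| * |x - a| + |ddd c y a a| * |y - a| := by rw [abs_mul, abs_mul]
    _ ≤ 700 * |x - a| + 700 * |y - a| := by
        gcongr
        · exact abs_ddd_le hc hx ha hy
        · exact abs_ddd_le hc hy ha ha
    _ = 700 * (|x - a| + |y - a|) := by ring

lemma abs_h5_sub_le {x y z a : ℝ} (hx : |x| ≤ 2) (hy : |y| ≤ 2) (hz : |z| ≤ 2) (ha : |a| ≤ 2) :
    |h5 x y z - h5 a a a| ≤ 560 * (|x - a| + |y - a| + |z - a|) := by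
  -- telescoping in the three variables with divided differences of degree four
  have key : ∀ p q r s : ℝ, |p| ≤ 2 → |q| ≤ 2 → |r| ≤ 2 → |s| ≤ 2 →
      |h5 p q r - h5 s q r| ≤ 560 * |p - s| := by
    intro p q r s hp hq hr hs
    have kk : ∀ i j k l : ℕ, i + j + k + l = 4 → |p ^ i * s ^ j * q ^ k * r ^ l| ≤ 16 := by
      intro i j k l h
      calc |p ^ i * s ^ j * q ^ k * r ^ l| = |p| ^ i * |s| ^ j * |q| ^ k * |r| ^ l := by
            rw [abs_mul, abs_mul, abs_mul, abs_pow, abs_pow, abs_pow, abs_pow]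
        _ ≤ 2 ^ i * 2 ^ j * 2 ^ k * 2 ^ l := by gcongr
        _ = 2 ^ (i + j + k + l) := by rw [pow_add, pow_add, pow_add]
        _ = 16 := by rw [h]; norm_num
    let term : ℕ × ℕ × ℕ × ℕ → ℝ := fun e => p ^ e.1 * s ^ e.2.1 * q ^ e.2.2.1 * r ^ e.2.2.2
    let L : Finset (ℕ × ℕ × ℕ × ℕ) := (Finset.range 5 ×ˢ Finset.range 5 ×ˢ Finset.range 5 ×ˢ
      Finset.range 5).filter (fun e => e.1 + e.2.1 + e.2.2.1 + e.2.2.2 = 4)
    have e : h5 p q r - h5 s q r = (∑ e ∈ L, term e) * (p - s) := by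
      have : (∑ e ∈ L, term e) = ∑ e ∈ L, p ^ e.1 * s ^ e.2.1 * q ^ e.2.2.1 * r ^ e.2.2.2 := rfl
      rw [this]
      have hL : L = {(0,0,0,4),(0,0,1,3),(0,0,2,2),(0,0,3,1),(0,0,4,0),(0,1,0,3),(0,1,1,2),
        (0,1,2,1),(0,1,3,0),(0,2,0,2),(0,2,1,1),(0,2,2,0),(0,3,0,1),(0,3,1,0),(0,4,0,0),
        (1,0,0,3),(1,0,1,2),(1,0,2,1),(1,0,3,0),(1,1,0,2),(1,1,1,1),(1,1,2,0),(1,2,0,1),
        (1,2,1,0),(1,3,0,0),(2,0,0,2),(2,0,1,1),(2,0,2,0),(2,1,0,1),(2,1,1,0),(2,2,0,0),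
        (3,0,0,1),(3,0,1,0),(3,1,0,0),(4,0,0,0)} := by decide +kernel
      rw [hL]
      unfold h5
      simp
      ring
    rw [e, abs_mul]
    gcongr
    calc |∑ e ∈ L, term e| ≤ ∑ e ∈ L, |term e| := Finset.abs_sum_le_sum_abs _ _
      _ ≤ ∑ e ∈ L, 16 := by
          apply Finset.sum_le_sum
          intro e he
          apply kk
          exact (Finset.mem_filter.1 he).2
      _ = L.card * 16 := by rw [Finset.sum_const, nsmul_eq_mul]
      _ = 560 := by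
          have : L.card = 35 := by decide +kernel
          rw [this]; norm_num
  have sym1 : ∀ p q r : ℝ, h5 p q r = h5 q p r := by intro p q r; unfold h5; ring
  have sym2 : ∀ p q r : ℝ, h5 p q r = h5 r q p := by intro p q r; unfold h5; ring
  have e : h5 x y z - h5 a a a = (h5 x y z - h5 a y z) + (h5 y a z - h5 a a z) +
      (h5 z a a - h5 a a a) := by
    rw [sym1 y a z, sym2 z a a]; ring
  rw [e]
  have k1 := key x y z a hx hy hz ha
  have k2 := key y a z a hy ha hz ha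
  have k3 := key z a a a hz ha ha ha
  calc |(h5 x y z - h5 a y z) + (h5 y a z - h5 a a z) + (h5 z a a - h5 a a a)|
      ≤ |(h5 x y z - h5 a y z) + (h5 y a z - h5 a a z)| + |h5 z a a - h5 a a a| :=
        abs_add_le _ _
    _ ≤ |h5 x y z - h5 a y z| + |h5 y a z - h5 a a z| + |h5 z a a - h5 a a a| := by
        gcongr; exact abs_add_le _ _
    _ ≤ _ := by linarith

lemma abs_ddd_sub_hfp_le {c x a τ z : ℝ} (hc : c ∈ Icc (0:ℝ) 1)
    (hz : z ∈ Icc (-1/2:ℝ) 2) (hx : x ∈ Icc (-1/2:ℝ) 2) (ha : a ∈ Icc (-1/2:ℝ) 2) (hτ : 0 < τ)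
    (hza : |z - a| ≤ τ / 20000) (hxa : |x - a| ≤ τ / 20000) :
    |ddd c z x a - hfp c a| ≤ τ := by
  have bz := abs_le_two hz
  have bx := abs_le_two hx
  have ba := abs_le_two ha
  have e : ddd c z x a - hfp c a = ((z - a) * (z + 3 * a) + (x - a) * (x + 3 * a) +
      (z - a) * (x - a)) + c * (h5 z x a - h5 a a a) := by
    unfold ddd hfp h5; ring
  rw [e]
  have h1 := abs_h5_sub_le bz bx ba ba
  rw [sub_self a, abs_zero, add_zero] at h1
  have q1 : |(z - a) * (z + 3 * a)| ≤ |z - a| * 8 := by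
    rw [abs_mul]
    gcongr
    calc |z + 3 * a| ≤ |z| + |3 * a| := abs_add_le _ _
      _ = |z| + 3 * |a| := by rw [abs_mul]; norm_num
      _ ≤ 8 := by linarith
  have q2 : |(x - a) * (x + 3 * a)| ≤ |x - a| * 8 := by
    rw [abs_mul]
    gcongr
    calc |x + 3 * a| ≤ |x| + |3 * a| := abs_add_le _ _
      _ = |x| + 3 * |a| := by rw [abs_mul]; norm_num
      _ ≤ 8 := by linarith
  have q3 : |(z - a) * (x - a)| ≤ |z - a| * 4 := by
    rw [abs_mul]
    gcongr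
    calc |x - a| ≤ |x| + |a| := abs_sub _ _
      _ ≤ 4 := by linarith
  have q4 : |c * (h5 z x a - h5 a a a)| ≤ 1 * (560 * (|z - a| + |x - a|)) := by
    rw [abs_mul, abs_of_nonneg hc.1]
    gcongr
    exact hc.2
  calc _ ≤ |(z - a) * (z + 3 * a) + (x - a) * (x + 3 * a) + (z - a) * (x - a)| +
      |c * (h5 z x a - h5 a a a)| := abs_add_le _ _
    _ ≤ |(z - a) * (z + 3 * a) + (x - a) * (x + 3 * a)| + |(z - a) * (x - a)| +
      |c * (h5 z x a - h5 a a a)| := by gcongr; exact abs_add_le _ _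
    _ ≤ |(z - a) * (z + 3 * a)| + |(x - a) * (x + 3 * a)| + |(z - a) * (x - a)| +
      |c * (h5 z x a - h5 a a a)| := by gcongr; exact abs_add_le _ _
    _ ≤ τ := by
      have := abs_nonneg (z - a)
      have := abs_nonneg (x - a)
      linarith

/-- For initial values near `a` the solutions stay in `[-1/2, 2]` and close to each other. -/
lemma near_basic {c a N ε : ℝ} (hc : c ∈ Icc (0:ℝ) 1) (ha : 0 < a) (ha2 : a < 2) (hN : 0 < N)
    (hV : -1/2 < V c a N) (hε : 0 < ε) : ∃ δ > 0, ∀ x, |x - a| < δ →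
      0 < x ∧ x < 2 ∧ (∀ s ∈ Icc 0 N, V c x s ∈ Icc (-1/2:ℝ) 2) ∧
      (∀ s ∈ Icc 0 N, |V c x s - V c a s| ≤ ε) := by
  set E := Real.exp (480 * N) with hE
  have hE0 : 0 < E := Real.exp_pos _
  set δ := min (min a (2 - a)) (min (ε / E) ((V c a N + 1/2) / E)) with hδ
  have hδ0 : 0 < δ := by
    refine lt_min (lt_min ha (by linarith)) (lt_min (by positivity) ?_)
    apply div_pos _ hE0
    linarith
  refine ⟨δ, hδ0, fun x hx => ?_⟩
  have h1 : δ ≤ a := (min_le_left _ _).trans (min_le_left _ _)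
  have h2 : δ ≤ 2 - a := (min_le_left _ _).trans (min_le_right _ _)
  have h3 : δ ≤ ε / E := (min_le_right _ _).trans (min_le_left _ _)
  have h4 : δ ≤ (V c a N + 1/2) / E := (min_le_right _ _).trans (min_le_right _ _)
  have hx' := abs_lt.1 hx
  have hx0 : 0 < x := by linarith
  have hx2 : x < 2 := by linarith
  have hd : ∀ s ∈ Icc 0 N, |V c x s - V c a s| ≤ |x - a| * E := fun s hs => V_lip hc hs
  have hE3 : |x - a| * E ≤ ε := by
    rw [← le_div_iff₀ hE0]; exact hx.le.trans h3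
  have hE4 : |x - a| * E ≤ V c a N + 1/2 := by
    rw [← le_div_iff₀ hE0]; exact hx.le.trans h4
  refine ⟨hx0, hx2, fun s hs => ⟨?_, ?_⟩, fun s hs => (hd s hs).trans hE3⟩
  · have h5 := abs_le.1 (hd N (right_mem_Icc.2 hN.le))
    have h6 : V c x N ≤ V c x s :=
      (V_strictAntiOn hc hx0).antitoneOn (mem_Ici.2 hs.1) (mem_Ici.2 hN.le) hs.2
    linarith [h5.1]
  · exact (V_le hc hx0 hs.1).trans hx2.le

theorem near_lin {c a N τ : ℝ} (hc : c ∈ Icc (0:ℝ) 1) (ha : 0 < a) (ha2 : a < 2) (hN : 0 < N)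
    (hV : -1/2 < V c a N) (hτ : 0 < τ) : ∃ δ > 0, ∀ x z, |x - a| < δ → |z - a| < δ → x ≠ z →
      Lin c (V c a) N τ (fun s => dd c (V c z s) (V c x s))
        (fun s => (V c z s - V c x s) / (z - x)) (fun s => (M c z s - M c x s) / (z - x)) := by
  obtain ⟨δ, hδ, h⟩ := near_basic (ε := τ / 1400) hc ha ha2 hN hV (by positivity)
  refine ⟨δ, hδ, fun x z hx hz hxz => ?_⟩
  obtain ⟨hx0, hx2, hx3, hx4⟩ := h x hx
  obtain ⟨hz0, hz2, hz3, hz4⟩ := h z hz
  obtain ⟨-, -, ha3, -⟩ := h a (by simpa using hδ)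
  have hne : z - x ≠ 0 := sub_ne_zero.2 hxz.symm
  refine ⟨?_, ?_, ?_, ?_, ?_⟩
  · intro s hs
    have e1 := (solAt_VM hc z hs.1.ne').1
    have e2 := (solAt_VM hc x hs.1.ne').1
    refine ((e1.fun_sub e2).div_const (z - x)).congr_deriv ?_
    ring
  · intro s hs
    have e1 := (solAt_VM hc z hs.1.ne').2
    have e2 := (solAt_VM hc x hs.1.ne').2
    refine ((e1.fun_sub e2).div_const (z - x)).congr_deriv ?_
    have e3 := F_eq_dd (c := c) (hz3 s ⟨hs.1.le, hs.2⟩) (hx3 s ⟨hs.1.le, hs.2⟩)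
    have e4 : -(s ^ 2 * F c (V c z s)) - -(s ^ 2 * F c (V c x s)) =
        -(s ^ 2 * (F c (V c z s) - F c (V c x s))) := by ring
    rw [e4, e3]
    ring
  · have e1 := (V_cont hc z).tendsto 0
    have e2 := (V_cont hc x).tendsto 0
    rw [V_zero hc] at e1 e2
    have e3 := ((e1.sub e2).div_const (z - x)).mono_left
      (nhdsWithin_le_nhds (s := Ioi (0:ℝ)))
    rwa [div_self hne] at e3
  · have e1 := (hasDerivAt_M hc z 0).continuousAt.tendsto
    have e2 := (hasDerivAt_M hc x 0).continuousAt.tendsto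
    rw [M_zero hc] at e1 e2
    have e3 := ((e1.sub e2).div_const (z - x)).mono_left
      (nhdsWithin_le_nhds (s := Ioi (0:ℝ)))
    rwa [sub_self, zero_div] at e3
  · intro s hs
    have hs' : s ∈ Icc 0 N := ⟨hs.1.le, hs.2⟩
    have := abs_dd_sub_fp_le hc (abs_le_two (hz3 s hs')) (abs_le_two (hx3 s hs'))
      (abs_le_two (ha3 s hs'))
    have e1 := hx4 s hs'
    have e2 := hz4 s hs'
    linarith

lemma Lin_tol {c : ℝ} {v : ℝ → ℝ} {N τ τ' : ℝ} {G u μ : ℝ → ℝ} (h : Lin c v N τ G u μ)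
    (hτ : τ ≤ τ') : Lin c v N τ' G u μ :=
  ⟨h.du, h.dμ, h.u0, h.μ0, fun s hs => (h.hG s hs).trans hτ⟩

/-- A function which is strictly increasing near each point of an interval is strictly
increasing. -/
theorem strictMonoOn_of_local {φ : ℝ → ℝ} {l r : ℝ}
    (h : ∀ a ∈ Icc l r, ∃ δ > 0, ∀ x ∈ Icc l r, ∀ z ∈ Icc l r, |x - a| < δ → |z - a| < δ →
      x < z → φ x < φ z) : StrictMonoOn φ (Icc l r) := by
  intro x hx z hz hxz
  -- the set of `t` in `[x, z]` such that `φ x < φ s` for all `s` in `(x, t]`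
  by_contra hcon
  push Not at hcon
  let S : Set ℝ := {t | t ∈ Icc x z ∧ ∀ s ∈ Ioc x t, φ x < φ s}
  have hxS : x ∈ S := ⟨left_mem_Icc.2 hxz.le, fun s hs => absurd hs.2 (not_le.2 hs.1)⟩
  have hbdd : BddAbove S := ⟨z, fun t ht => ht.1.2⟩
  set τ := sSup S with hτ
  have hxτ : x ≤ τ := le_csSup hbdd hxS
  have hτz : τ ≤ z := csSup_le ⟨x, hxS⟩ (fun t ht => ht.1.2)
  have hτm : τ ∈ Icc l r := ⟨hx.1.trans hxτ, hτz.trans hz.2⟩
  obtain ⟨δ, hδ, hloc⟩ := h τ hτm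
  obtain ⟨t, htS, htτ⟩ := exists_lt_of_lt_csSup ⟨x, hxS⟩ (show τ - δ < τ by linarith)
  have htle : t ≤ τ := le_csSup hbdd htS
  have htm : t ∈ Icc l r := ⟨hx.1.trans htS.1.1, htle.trans hτm.2⟩
  -- every point `s > t` near `τ` satisfies `φ t < φ s`, hence `φ x < φ s`
  have key : ∀ s ∈ Ioc t z, |s - τ| < δ → φ x < φ s := by
    intro s hs hsδ
    have h1 := hloc t htm s ⟨htm.1.trans hs.1.le, hs.2.trans hz.2⟩
      (by rw [abs_lt]; constructor <;> linarith) hsδ hs.1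
    rcases eq_or_lt_of_le htS.1.1 with h2 | h2
    · rwa [← h2] at h1
    · exact (htS.2 t ⟨h2, le_rfl⟩).trans h1
  set t' := min z (τ + δ / 2) with ht'
  have ht'z : t' ≤ z := min_le_left _ _
  have hτt' : τ ≤ t' := le_min hτz (by linarith)
  have ht'S : t' ∈ S := by
    refine ⟨⟨hxτ.trans hτt', ht'z⟩, fun s hs => ?_⟩
    rcases le_or_gt s t with h1 | h1
    · exact htS.2 s ⟨hs.1, h1⟩
    · apply key s ⟨h1, hs.2.trans ht'z⟩
      have : s ≤ τ + δ / 2 := hs.2.trans (min_le_right _ _)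
      rw [abs_lt]; constructor <;> linarith
  have h3 : t' ≤ τ := le_csSup hbdd ht'S
  have h4 : t' = τ := le_antisymm h3 hτt'
  have h5 : z = τ := by
    rcases min_choice z (τ + δ / 2) with h6 | h6
    · rw [← h6]; exact h4
    · rw [ht', h6] at h4; linarith
  have h6 : z ∈ S := by rw [h5, ← h4]; exact ht'S
  exact absurd (h6.2 z ⟨hxz, le_rfl⟩) (not_lt.2 hcon)

theorem near_lin2 {c a N τ : ℝ} (hc : c ∈ Icc (0:ℝ) 1) (ha : 0 < a) (ha2 : a < 2) (hN : 0 < N)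
    (hV : -1/2 < V c a N) (hτ : 0 < τ) : ∃ δ > 0, ∀ x z, a - δ < x → x < a → a < z → z < a + δ →
      Lin c (V c a) N τ (fun s => dd c (V c z s) (V c x s))
        (fun s => (V c z s - V c x s) / (z - x)) (fun s => (M c z s - M c x s) / (z - x)) ∧
      Lin c (V c a) N τ (fun s => dd c (V c a s) (V c x s))
        (fun s => (V c a s - V c x s) / (a - x)) (fun s => (M c a s - M c x s) / (a - x)) ∧
      Lin2 c (V c a) N τ (fun s => ddd c (V c z s) (V c x s) (V c a s))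
        (fun s => (V c z s - V c x s) / (z - x)) (fun s => (V c a s - V c x s) / (a - x))
        (fun s => dd c (V c z s) (V c a s))
        (fun s => ((V c z s - V c a s) / (z - a) - (V c a s - V c x s) / (a - x)) / (z - x))
        (fun s => ((M c z s - M c a s) / (z - a) - (M c a s - M c x s) / (a - x)) / (z - x)) := by
  obtain ⟨δ₁, hδ₁, h₁⟩ := near_lin hc ha ha2 hN hV hτ
  obtain ⟨δ₂, hδ₂, h⟩ := near_basic (ε := τ / 20000) hc ha ha2 hN hV (by positivity)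
  refine ⟨min δ₁ δ₂, lt_min hδ₁ hδ₂, fun x z hx hxa haz hz => ?_⟩
  have m1 := min_le_left δ₁ δ₂
  have m2 := min_le_right δ₁ δ₂
  have hxa' : |x - a| < min δ₁ δ₂ := by rw [abs_lt]; constructor <;> linarith
  have hza' : |z - a| < min δ₁ δ₂ := by rw [abs_lt]; constructor <;> linarith
  have haa' : |a - a| < min δ₁ δ₂ := by rw [sub_self, abs_zero]; exact lt_min hδ₁ hδ₂
  have L1 := h₁ x z (hxa'.trans_le m1) (hza'.trans_le m1) (by linarith : x < z).ne
  have L2 := h₁ x a (hxa'.trans_le m1) (haa'.trans_le m1) hxa.ne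
  have L3 := h₁ a z (haa'.trans_le m1) (hza'.trans_le m1) haz.ne
  obtain ⟨hx0, hx2, hx3, hx4⟩ := h x (hxa'.trans_le m2)
  obtain ⟨hz0, hz2, hz3, hz4⟩ := h z (hza'.trans_le m2)
  obtain ⟨-, -, ha3, -⟩ := h a (haa'.trans_le m2)
  have n1 : z - a ≠ 0 := by linarith
  have n2 : a - x ≠ 0 := by linarith
  have n3 : z - x ≠ 0 := by linarith
  refine ⟨L1, L2, ?_, ?_, ?_, ?_, ?_, ?_⟩
  · intro s hs
    refine (((L3.du s hs).fun_sub (L2.du s hs)).div_const (z - x)).congr_deriv ?_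
    ring
  · intro s hs
    refine (((L3.dμ s hs).fun_sub (L2.dμ s hs)).div_const (z - x)).congr_deriv ?_
    have e := dd_sub c (V c z s) (V c x s) (V c a s)
    have e' : dd c (V c a s) (V c x s) = dd c (V c x s) (V c a s) := dd_comm _ _ _
    rw [e']
    have e2 : dd c (V c z s) (V c a s) = dd c (V c x s) (V c a s) +
      ddd c (V c z s) (V c x s) (V c a s) * (V c z s - V c x s) := by linarith
    field_simp
    rw [e2]
    ring
  · have := (L3.u0.sub L2.u0).div_const (z - x)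
    rwa [sub_self, zero_div] at this
  · have := (L3.μ0.sub L2.μ0).div_const (z - x)
    rwa [sub_self, zero_div] at this
  · exact L3.hG
  · intro s hs
    have hs' : s ∈ Icc 0 N := ⟨hs.1.le, hs.2⟩
    exact abs_ddd_sub_hfp_le hc (hz3 s hs') (hx3 s hs') (ha3 s hs') hτ (hz4 s hs') (hx4 s hs')

/-- solutions with initial value near `a` cross if the solution with initial value `a` does -/
lemma crosses_near {a N : ℝ} (ha : 0 < a) (hN : 0 < N) (hVN : V 1 a N < 0) :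
    ∃ δ > 0, ∀ x, |x - a| < δ → 0 < x ∧ Crosses x := by
  set E := Real.exp (480 * N) with hE
  have hE0 : 0 < E := Real.exp_pos _
  refine ⟨min a (-V 1 a N / (2 * E)), lt_min ha (by apply div_pos <;> linarith), fun x hx => ?_⟩
  have h1 := hx.trans_le (min_le_left _ _)
  have h2 := hx.trans_le (min_le_right _ _)
  have hx0 : 0 < x := by linarith [(abs_lt.1 h1).1]
  refine ⟨hx0, ?_⟩
  have h3 := V_lip (a := x) (a' := a) one_mem (right_mem_Icc.2 hN.le)
  rw [← hE] at h3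
  have h4 : |x - a| * E < -V 1 a N := by
    rw [lt_div_iff₀ (by positivity)] at h2
    have := mul_nonneg (abs_nonneg (x - a)) hE0.le
    linarith
  have h5 : V 1 x N < 0 := by linarith [(abs_le.1 h3).2]
  have h6 : (0:ℝ) ∈ V 1 x '' Icc 0 N := by
    apply intermediate_value_Icc' hN.le (V_cont one_mem x).continuousOn
    rw [V_zero one_mem]
    exact ⟨h5.le, hx0.le⟩
  obtain ⟨t, ht, hvt⟩ := h6
  rcases eq_or_lt_of_le ht.1 with h7 | h7
  · rw [← h7, V_zero one_mem] at hvt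
    linarith
  · exact ⟨t, h7, hvt⟩

/-! ### Scaling -/

/-- `α V (α³) b` is, up to the change of variable, the solution `V 1 (α b)`. -/
theorem scaling {α b N : ℝ} (hα : 0 < α) (hα1 : α ≤ 1) (hN : 0 < N) (hb : 0 < b) (hb2 : b ≤ 2)
    (hV : -1/2 ≤ V (α ^ 3) b N) {t : ℝ} (ht : t ∈ Icc 0 N) :
    V 1 (α * b) (t / (α * √α)) = α * V (α ^ 3) b t ∧
      M 1 (α * b) (t / (α * √α)) = M (α ^ 3) b t / √α := by
  have hc : α ^ 3 ∈ Icc (0:ℝ) 1 := ⟨by positivity, pow_le_one₀ hα.le hα1⟩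
  set k := α * √α with hk
  have hs0 : 0 < √α := Real.sqrt_pos.2 hα
  have hsq : √α * √α = α := Real.mul_self_sqrt hα.le
  have hk0 : 0 < k := by positivity
  have hk2 : k ^ 2 = α ^ 3 := by
    rw [hk, mul_pow, sq √α, hsq]; ring
  rcases eq_or_lt_of_le ht.1 with h0 | h0
  · rw [← h0, zero_div, V_zero one_mem, V_zero hc, M_zero one_mem, M_zero hc, zero_div]
    exact ⟨rfl, rfl⟩
  have hrange : ∀ s ∈ Icc 0 N, V (α ^ 3) b s ∈ Icc (-1/2:ℝ) 2 := by
    intro s hs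
    refine ⟨hV.trans ((V_strictAntiOn hc hb).antitoneOn (mem_Ici.2 hs.1) (mem_Ici.2 hN.le) hs.2),
      (V_le hc hb hs.1).trans hb2⟩
  have hrad : RadOn 1 (α * b) (N / k) (fun t => α * V (α ^ 3) b (k * t))
      (fun t => M (α ^ 3) b (k * t) / √α) := by
    refine ⟨?_, ?_, ?_⟩
    · intro r hr
      have hkr : k * r ∈ Icc 0 N := by
        refine ⟨by have := hr.1; positivity, ?_⟩
        have := hr.2
        rw [le_div_iff₀ hk0] at this
        linarith
      have hkr0 : k * r ≠ 0 := by have := hr.1; positivity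
      have hlin : HasDerivAt (fun t => k * t) k r := by
        simpa using (hasDerivAt_id' r).const_mul k
      have d1 := ((V_of_pos hc hkr0 (a := b)).comp r hlin).const_mul α
      have d2 := ((hasDerivAt_M hc b (k * r)).comp r hlin).div_const √α
      have hr0 := hr.1.ne'
      have hs0' := hs0.ne'
      refine ⟨?_, ?_⟩
      · refine d1.congr_deriv ?_
        have : α * (M (α ^ 3) b (k * r) / (k * r) ^ 2 * k) =
            M (α ^ 3) b (k * r) / √α / r ^ 2 := by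
          rw [hk]
          field_simp
        exact this
      · refine d2.congr_deriv ?_
        have hmem := hrange _ hkr
        have e1 : F (α ^ 3) (V (α ^ 3) b (k * r)) = f (α ^ 3) (V (α ^ 3) b (k * r)) :=
          F_of_mem hmem
        have e2 : F 1 (α * V (α ^ 3) b (k * r)) = f 1 (α * V (α ^ 3) b (k * r)) := by
          apply F_of_mem
          constructor
          · rcases le_or_gt 0 (V (α ^ 3) b (k * r)) with h | h
            · have := mul_nonneg hα.le h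
              linarith
            · nlinarith [hmem.1]
          · nlinarith [hmem.2]
        have e3 : f 1 (α * V (α ^ 3) b (k * r)) =
            α ^ 4 * f (α ^ 3) (V (α ^ 3) b (k * r)) := by
          unfold f; ring
        simp only
        rw [e1, e2, e3]
        rw [div_eq_iff hs0']
        have e4 : (k * r) ^ 2 = α ^ 3 * r ^ 2 := by rw [mul_pow, hk2]
        rw [e4]
        have e5 : k = α * √α := hk
        rw [e5]
        ring
    · have h1 : Tendsto (fun t : ℝ => k * t) (𝓝[>] 0) (𝓝 0) := by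
        have : Continuous (fun t : ℝ => k * t) := by fun_prop
        have h2 := this.tendsto 0
        rw [mul_zero] at h2
        exact h2.mono_left nhdsWithin_le_nhds
      have h2 := (V_cont hc b).tendsto 0
      rw [V_zero hc] at h2
      exact (h2.comp h1).const_mul α
    · have h1 : Tendsto (fun t : ℝ => k * t) (𝓝[>] 0) (𝓝 0) := by
        have : Continuous (fun t : ℝ => k * t) := by fun_prop
        have h2 := this.tendsto 0
        rw [mul_zero] at h2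
        exact h2.mono_left nhdsWithin_le_nhds
      have h2 := (hasDerivAt_M hc b 0).continuousAt.tendsto
      rw [M_zero hc] at h2
      have := (h2.comp h1).div_const √α
      rwa [zero_div] at this
  have ht' : t / k ∈ Ioc 0 (N / k) := ⟨by positivity, by gcongr; exact ht.2⟩
  have hu := hrad.unique one_mem ht'
  have e : k * (t / k) = t := by field_simp
  simp only [e] at hu
  exact ⟨hu.1.symm, hu.2.symm⟩

/-- `LocL` from the normalised equation. -/
theorem locL_norm {α t₀ N τ : ℝ} (hα : 0 < α) (hα1 : α ≤ 1) (ht₀ : 0 < t₀) (htN : t₀ < N)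
    (hτ : 0 < τ) (hz : V (α ^ 3) 1 t₀ = 0) (hV : -1/2 < V (α ^ 3) 1 N)
    (h : ∀ G u μ, Lin (α ^ 3) (V (α ^ 3) 1) N τ G u μ → u t₀ < 0) : LocL α := by
  have hc : α ^ 3 ∈ Icc (0:ℝ) 1 := ⟨by positivity, pow_le_one₀ hα.le hα1⟩
  have hN : 0 < N := ht₀.trans htN
  set k := α * √α with hk
  have hs0 : 0 < √α := Real.sqrt_pos.2 hα
  have hk0 : 0 < k := by positivity
  have hsc1 := scaling hα hα1 hN one_pos (by norm_num) hV.le ⟨ht₀.le, htN.le⟩
  rw [mul_one, hz, mul_zero] at hsc1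
  have htk : 0 < t₀ / k := by positivity
  have hcr : Crosses α := ⟨t₀ / k, htk, hsc1.1⟩
  have hT : T α = t₀ / k := T_unique hα htk hsc1.1
  obtain ⟨δ₁, hδ₁, h₁⟩ := near_lin hc one_pos (by norm_num) hN hV hτ
  obtain ⟨δ₂, hδ₂, h₂⟩ := near_basic (ε := 1) hc one_pos (by norm_num) hN hV one_pos
  have hVneg : V 1 α (N / k) < 0 := by
    apply V_neg_of_gt hα hcr
    rw [hT]; gcongr
  obtain ⟨δ₃, hδ₃, h₃⟩ := crosses_near hα (by positivity : 0 < N / k) hVneg
  have hδ : 0 < min (α * min δ₁ δ₂) δ₃ := lt_min (mul_pos hα (lt_min hδ₁ hδ₂)) hδ₃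
  refine ⟨hcr, _, hδ, fun x hx => ?_⟩
  have m1 := min_le_left (α * min δ₁ δ₂) δ₃
  have m2 := min_le_right (α * min δ₁ δ₂) δ₃
  obtain ⟨hx0, hxc⟩ := h₃ x (by rw [abs_lt]; constructor <;> linarith [hx.1, hx.2])
  set b := x / α with hb
  have hxb : x = α * b := by rw [hb]; field_simp
  have hb1 : b < 1 := by rw [hb, div_lt_one hα]; exact hx.2
  have hb0 : 0 < b := by positivity
  have hbd : |b - 1| < min δ₁ δ₂ := by
    rw [abs_lt]
    constructor
    · have : α - α * min δ₁ δ₂ < α * b := by rw [← hxb]; linarith [hx.1]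
      have h5 : α * (1 - min δ₁ δ₂) < α * b := by linarith
      have := lt_of_mul_lt_mul_left h5 hα.le
      linarith
    · have := lt_min hδ₁ hδ₂
      linarith
  have h4 := h _ _ _ (h₁ b 1 (hbd.trans_le (min_le_left _ _)) (by simpa using hδ₁) hb1.ne)
  rw [hz, zero_sub] at h4
  have h5 : 0 < V (α ^ 3) b t₀ := by
    by_contra hcon
    push Not at hcon
    have : 0 ≤ -V (α ^ 3) b t₀ / (1 - b) := div_nonneg (by linarith) (by linarith)
    linarith
  obtain ⟨-, -, h6, -⟩ := h₂ b (hbd.trans_le (min_le_right _ _))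
  have h7 := (h6 N (right_mem_Icc.2 hN.le)).1
  have h8 := (scaling hα hα1 hN hb0 (by linarith) h7 ⟨ht₀.le, htN.le⟩).1
  rw [hT, lt_T_iff hx0 hxc htk.le, hxb, h8]
  positivity

theorem loc_L {a N τ : ℝ} (ha : 0 < a) (ha2 : a < 2) (hτ : 0 < τ) (hcr : Crosses a)
    (hTN : T a < N) (hV : -1/2 < V 1 a N)
    (h : ∀ G u μ, Lin 1 (V 1 a) N τ G u μ → u (T a) < 0) : LocL a := by
  have hT := T_pos hcr
  obtain ⟨δ₁, hδ₁, h₁⟩ := near_lin one_mem ha ha2 (hT.trans hTN) hV hτ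
  obtain ⟨δ₂, hδ₂, h₂⟩ := crosses_near ha (hT.trans hTN) (V_neg_of_gt ha hcr hTN)
  refine ⟨hcr, min δ₁ δ₂, lt_min hδ₁ hδ₂, fun x hx => ?_⟩
  have hxa : |x - a| < min δ₁ δ₂ := by rw [abs_lt]; constructor <;> linarith [hx.1, hx.2, lt_min hδ₁ hδ₂]
  obtain ⟨hx0, hxc⟩ := h₂ x (hxa.trans_le (min_le_right _ _))
  have h3 := h _ _ _ (h₁ x a (hxa.trans_le (min_le_left _ _)) (by simpa using hδ₁) hx.2.ne)
  rw [V_T hcr, zero_sub] at h3
  rw [lt_T_iff hx0 hxc hT.le]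
  have h4 : 0 < a - x := by linarith [hx.2]
  by_contra h5
  push Not at h5
  have : 0 ≤ -V 1 x (T a) / (a - x) := div_nonneg (by linarith) h4.le
  linarith

theorem loc_R {a N τ : ℝ} (ha : 0 < a) (ha2 : a < 2) (hτ : 0 < τ) (hcr : Crosses a)
    (hTN : T a < N) (hV : -1/2 < V 1 a N)
    (h : ∀ G u μ, Lin 1 (V 1 a) N τ G u μ → 0 < u (T a)) : LocR a := by
  have hT := T_pos hcr
  obtain ⟨δ₁, hδ₁, h₁⟩ := near_lin one_mem ha ha2 (hT.trans hTN) hV hτ
  obtain ⟨δ₂, hδ₂, h₂⟩ := crosses_near ha (hT.trans hTN) (V_neg_of_gt ha hcr hTN)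
  refine ⟨hcr, min δ₁ δ₂, lt_min hδ₁ hδ₂, fun x hx => ?_⟩
  have hxa : |x - a| < min δ₁ δ₂ := by rw [abs_lt]; constructor <;> linarith [hx.1, hx.2, lt_min hδ₁ hδ₂]
  obtain ⟨hx0, hxc⟩ := h₂ x (hxa.trans_le (min_le_right _ _))
  have h3 := h _ _ _ (h₁ a x (by simpa using hδ₁) (hxa.trans_le (min_le_left _ _)) hx.1.ne)
  rw [V_T hcr, sub_zero] at h3
  rw [lt_T_iff hx0 hxc hT.le]
  have h4 : 0 < x - a := by linarith [hx.1]
  by_contra h5
  push Not at h5
  have : V 1 x (T a) / (x - a) ≤ 0 := div_nonpos_of_nonpos_of_nonneg h5 h4.le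
  linarith

theorem loc_W {a N τ : ℝ} (ha : 0 < a) (ha2 : a < 2) (hτ : 0 < τ) (hcr : Crosses a)
    (hTN : T a < N) (hV : -1/2 < V 1 a N)
    (h : ∀ g u₁ u₂ G u μ G₁ μ₁ G₂ μ₂, Lin 1 (V 1 a) N τ G₁ u₁ μ₁ → Lin 1 (V 1 a) N τ G₂ u₂ μ₂ →
      Lin2 1 (V 1 a) N τ g u₁ u₂ G u μ → 0 < u (T a)) : Crosses a ∧ LocQ a := by
  have hT := T_pos hcr
  obtain ⟨δ₁, hδ₁, h₁⟩ := near_lin2 one_mem ha ha2 (hT.trans hTN) hV hτ
  obtain ⟨δ₂, hδ₂, h₂⟩ := crosses_near ha (hT.trans hTN) (V_neg_of_gt ha hcr hTN)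
  have hδ := lt_min hδ₁ hδ₂
  refine ⟨hcr, min δ₁ δ₂, hδ, fun x hx z hz => ?_⟩
  have m1 := min_le_left δ₁ δ₂
  have m2 := min_le_right δ₁ δ₂
  obtain ⟨hx0, hxc⟩ := h₂ x (by rw [abs_lt]; constructor <;> linarith [hx.1, hx.2])
  obtain ⟨hz0, hzc⟩ := h₂ z (by rw [abs_lt]; constructor <;> linarith [hz.1, hz.2])
  obtain ⟨L1, L2, L3⟩ := h₁ x z (by linarith [hx.1]) hx.2 hz.1 (by linarith [hz.2])
  have h3 := h _ _ _ _ _ _ _ _ _ _ L1 L2 L3
  rw [V_T hcr, sub_zero, zero_sub] at h3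
  rw [lt_max_iff, lt_T_iff hx0 hxc hT.le, lt_T_iff hz0 hzc hT.le]
  by_contra h5
  push Not at h5
  have h4 : 0 < z - a := by linarith [hz.1]
  have h6 : 0 < a - x := by linarith [hx.2]
  have h7 : V 1 z (T a) / (z - a) ≤ 0 := div_nonpos_of_nonpos_of_nonneg h5.2 h4.le
  have h8 : 0 ≤ -V 1 x (T a) / (a - x) := div_nonneg (by linarith [h5.1]) h6.le
  have h9 : (V 1 z (T a) / (z - a) - -V 1 x (T a) / (a - x)) / (z - x) ≤ 0 :=
    div_nonpos_of_nonpos_of_nonneg (by linarith) (by linarith)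
  linarith

end LinNi.H54
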